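import Mathlib

/-!
# The monomial Cartier operator on a polynomial ring over `ZMod p`, and on power series over it
-/

namespace Pool.Agent.H87.PC

open MvPolynomial

noncomputable section

variable (p : ℕ) [hp : Fact p.Prime] {ι : Type*}

/-- The additive (`ZMod p`-linear) map sending a monomial `x^(p m)` to `x^m` and every monomial that is
not a `p`-th power to `0`. -/
def cart : MvPolynomial ι (ZMod p) →ₗ[ZMod p] MvPolynomial ι (ZMod p) :=
  open Classical in
  (basisMonomials ι (ZMod p)).constr (ZMod p)
    (fun m => if h : ∃ m', p • m' = m then monomial h.choose 1 else 0)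

lemma smul_inj' {a b : ι →₀ ℕ} (h : p • a = p • b) : a = b := by
  ext i
  have := DFunLike.congr_fun h i
  simp only [Finsupp.coe_smul, Pi.smul_apply, smul_eq_mul] at this
  exact Nat.eq_of_mul_eq_mul_left hp.out.pos this

lemma cart_monomial_one (m : ι →₀ ℕ) :
    cart p (monomial m (1 : ZMod p)) =
      open Classical in (if h : ∃ m', p • m' = m then monomial h.choose 1 else 0) := by
  classical
  have := (basisMonomials ι (ZMod p)).constr_basis (ZMod p)
    (fun m => if h : ∃ m', p • m' = m then monomial h.choose 1 else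
      (0 : MvPolynomial ι (ZMod p))) m
  rw [coe_basisMonomials] at this
  exact this

lemma cart_monomial (m : ι →₀ ℕ) (α : ZMod p) :
    cart p (monomial (p • m) α) = monomial m α := by
  have h1 : (monomial (p • m) α : MvPolynomial ι (ZMod p)) = α • monomial (p • m) 1 := by
    rw [smul_monomial, smul_eq_mul, mul_one]
  have h2 : (monomial m α : MvPolynomial ι (ZMod p)) = α • monomial m 1 := by
    rw [smul_monomial, smul_eq_mul, mul_one]
  rw [h1, h2, map_smul, cart_monomial_one]
  have h : ∃ m', p • m' = p • m := ⟨m, rfl⟩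
  rw [dif_pos h]
  rw [smul_inj' p h.choose_spec]

lemma cart_monomial_of_not (m : ι →₀ ℕ) (α : ZMod p) (h : ¬ ∃ m', p • m' = m) :
    cart p (monomial m α) = 0 := by
  have h1 : (monomial m α : MvPolynomial ι (ZMod p)) = α • monomial m 1 := by
    rw [smul_monomial, smul_eq_mul, mul_one]
  rw [h1, map_smul, cart_monomial_one, dif_neg h, smul_zero]

lemma cart_monomial_pow_mul (k : ι →₀ ℕ) (α : ZMod p) (f : MvPolynomial ι (ZMod p)) :
    cart p ((monomial k α) ^ p * f) = monomial k α * cart p f := by
  have hk : (monomial k α : MvPolynomial ι (ZMod p)) ^ p = monomial (p • k) α := by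
    rw [monomial_pow, ZMod.pow_card]
  rw [hk]
  induction f using MvPolynomial.induction_on' with
  | monomial m β =>
    rw [monomial_mul]
    by_cases h : ∃ m', p • m' = m
    · obtain ⟨m', rfl⟩ := h
      rw [← smul_add, cart_monomial, cart_monomial, monomial_mul]
    · rw [cart_monomial_of_not p m β h, mul_zero]
      apply cart_monomial_of_not
      rintro ⟨m', hm'⟩
      apply h
      refine ⟨m' - k, ?_⟩
      ext i
      have := DFunLike.congr_fun hm' i
      simp only [Finsupp.coe_smul, Pi.smul_apply, smul_eq_mul, Finsupp.coe_add, Pi.add_apply,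
        Finsupp.coe_tsub, Pi.sub_apply] at this ⊢
      rw [Nat.mul_sub, this]
      omega
  | add f g hf hg =>
    rw [mul_add, map_add, hf, hg, map_add, mul_add]

lemma cart_pow_mul (a f : MvPolynomial ι (ZMod p)) :
    cart p (a ^ p * f) = a * cart p f := by
  induction a using MvPolynomial.induction_on' generalizing f with
  | monomial k α => exact cart_monomial_pow_mul p k α f
  | add a b ha hb =>
    rw [add_pow_char, add_mul, map_add, ha, hb, add_mul]

lemma cart_C (α : ZMod p) : cart p (C α : MvPolynomial ι (ZMod p)) = C α := by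
  have := cart_monomial p (0 : ι →₀ ℕ) α
  rw [smul_zero] at this
  exact this

lemma cart_one : cart p (1 : MvPolynomial ι (ZMod p)) = 1 := by
  rw [← C_1, cart_C]

/-- A ring endomorphism acting diagonally on monomials commutes with `cart`. -/
lemma cart_comm_of_monomial (φ : MvPolynomial ι (ZMod p) →ₐ[ZMod p] MvPolynomial ι (ZMod p))
    (h : ∀ m : ι →₀ ℕ, (∀ i, m i < p) → m ≠ 0 → cart p (φ (monomial m 1)) = 0)
    (f : MvPolynomial ι (ZMod p)) : cart p (φ f) = φ (cart p f) := by
  induction f using MvPolynomial.induction_on' with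
  | monomial m α =>
    -- decompose m = p • m1 + m2
    let m1 : ι →₀ ℕ := m.mapRange (fun n => n / p) (by simp)
    let m2 : ι →₀ ℕ := m.mapRange (fun n => n % p) (by simp)
    have hm : m = p • m1 + m2 := by
      ext i
      simp only [m1, m2, Finsupp.coe_add, Finsupp.coe_smul, Pi.add_apply, Pi.smul_apply,
        Finsupp.mapRange_apply, smul_eq_mul]
      exact (Nat.div_add_mod _ _).symm
    have hdec : (monomial m α : MvPolynomial ι (ZMod p)) =
        (monomial m1 α) ^ p * monomial m2 1 := by
      rw [monomial_pow, ZMod.pow_card, monomial_mul, mul_one, ← hm]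
    rw [hdec, map_mul, map_pow, cart_pow_mul, cart_pow_mul, map_mul]
    congr 1
    by_cases h0 : m2 = 0
    · rw [h0, show (monomial (0 : ι →₀ ℕ) (1 : ZMod p) : MvPolynomial ι (ZMod p)) = 1 from rfl,
        map_one, cart_one, map_one]
    · rw [h m2 (fun i => by
        simp only [m2]
        exact Nat.mod_lt _ hp.out.pos) h0]
      rw [cart_monomial_of_not, map_zero]
      rintro ⟨m', hm'⟩
      apply h0
      ext i
      have h1 := DFunLike.congr_fun hm' i
      have h2 : m2 i < p := by
        simp only [m2]
        exact Nat.mod_lt _ hp.out.pos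
      simp only [Finsupp.coe_smul, Pi.smul_apply, smul_eq_mul] at h1
      rw [Finsupp.coe_zero, Pi.zero_apply]
      rcases Nat.eq_zero_or_pos (m' i) with h3 | h3
      · rw [← h1, h3, mul_zero]
      · have : p * 1 ≤ p * m' i := Nat.mul_le_mul_left _ h3
        omega
  | add f g hf hg => rw [map_add, map_add, hf, hg, map_add, map_add]

/-- A weighted homogeneous polynomial of degree prime to `p` is killed by `cart`. -/
lemma cart_eq_zero_of_weighted (wt : ι → ℕ) (n : ℕ) (hn : ¬ p ∣ n)
    (f : MvPolynomial ι (ZMod p)) (hf : IsWeightedHomogeneous wt f n) : cart p f = 0 := by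
  rw [← support_sum_monomial_coeff f, map_sum]
  apply Finset.sum_eq_zero
  intro m hm
  apply cart_monomial_of_not
  rintro ⟨m', rfl⟩
  have h := hf (mem_support_iff.mp hm)
  apply hn
  rw [← h, map_nsmul]
  exact ⟨_, rfl⟩

/-! ### Power series -/

/-- The Cartier operator on power series over a polynomial ring. -/
def Cart : PowerSeries (MvPolynomial ι (ZMod p)) →+ PowerSeries (MvPolynomial ι (ZMod p)) where
  toFun F := PowerSeries.mk fun n => cart p (PowerSeries.coeff (p * n) F)
  map_zero' := by ext n; simp
  map_add' F G := by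
    ext n
    simp [PowerSeries.coeff_mk]

lemma coeff_Cart (n : ℕ) (F : PowerSeries (MvPolynomial ι (ZMod p))) :
    PowerSeries.coeff n (Cart p F) = cart p (PowerSeries.coeff (p * n) F) := by
  simp [Cart]

lemma Cart_X_pow_mul (n : ℕ) (F : PowerSeries (MvPolynomial ι (ZMod p))) :
    Cart p ((PowerSeries.X ^ n) ^ p * F) = PowerSeries.X ^ n * Cart p F := by
  ext1 k
  rw [coeff_Cart, ← pow_mul, PowerSeries.coeff_X_pow_mul', PowerSeries.coeff_X_pow_mul']
  by_cases h : n ≤ k
  · have h' : n * p ≤ p * k := by
      rw [mul_comm]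
      exact Nat.mul_le_mul_left _ h
    rw [if_pos h, if_pos h', coeff_Cart]
    congr 2
    rw [mul_comm n p, ← Nat.mul_sub]
  · have h' : ¬ n * p ≤ p * k := by
      rw [mul_comm n p]
      intro h2
      exact h (Nat.le_of_mul_le_mul_left h2 hp.out.pos)
    rw [if_neg h, if_neg h', map_zero]

lemma Cart_C_pow_mul (a : MvPolynomial ι (ZMod p)) (F : PowerSeries (MvPolynomial ι (ZMod p))) :
    Cart p ((PowerSeries.C a) ^ p * F) = PowerSeries.C a * Cart p F := by
  ext1 k
  rw [coeff_Cart, ← map_pow, PowerSeries.coeff_C_mul, PowerSeries.coeff_C_mul, coeff_Cart,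
    cart_pow_mul]

lemma Cart_poly_pow_mul (A : Polynomial (MvPolynomial ι (ZMod p)))
    (F : PowerSeries (MvPolynomial ι (ZMod p))) :
    Cart p ((A : PowerSeries (MvPolynomial ι (ZMod p))) ^ p * F) =
      (A : PowerSeries (MvPolynomial ι (ZMod p))) * Cart p F := by
  have : CharP (PowerSeries (MvPolynomial ι (ZMod p))) p :=
    charP_of_injective_ringHom (f := (PowerSeries.C (R := MvPolynomial ι (ZMod p))))
      (PowerSeries.C_injective) p
  induction A using Polynomial.induction_on' generalizing F with
  | add A B hA hB =>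
    rw [Polynomial.coe_add, add_pow_char, add_mul, map_add, hA, hB, add_mul]
  | monomial n a =>
    have h : ((Polynomial.monomial n a : Polynomial (MvPolynomial ι (ZMod p))) :
        PowerSeries (MvPolynomial ι (ZMod p))) = PowerSeries.C a * PowerSeries.X ^ n := by
      rw [Polynomial.coe_monomial, PowerSeries.monomial_eq_mk, mul_comm]
      ext1 k
      rw [PowerSeries.coeff_X_pow_mul', PowerSeries.coeff_mk, PowerSeries.coeff_C]
      by_cases h : k = n
      · subst h; simp
      · rw [if_neg h]
        by_cases h2 : n ≤ k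
        · rw [if_pos h2, if_neg (by omega)]
        · rw [if_neg h2]
    rw [h, mul_pow, mul_assoc, Cart_C_pow_mul, Cart_X_pow_mul, mul_assoc]

lemma Cart_pow_mul (A F : PowerSeries (MvPolynomial ι (ZMod p))) :
    Cart p (A ^ p * F) = A * Cart p F := by
  have : CharP (PowerSeries (MvPolynomial ι (ZMod p))) p :=
    charP_of_injective_ringHom (f := (PowerSeries.C (R := MvPolynomial ι (ZMod p))))
      (PowerSeries.C_injective) p
  ext1 n
  obtain ⟨A', hA'⟩ : ∃ A' : PowerSeries (MvPolynomial ι (ZMod p)),
      A = PowerSeries.X ^ (n+1) * A' +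
        ((PowerSeries.trunc (n+1) A : Polynomial (MvPolynomial ι (ZMod p))) :
          PowerSeries (MvPolynomial ι (ZMod p))) :=
    ⟨_, PowerSeries.eq_X_pow_mul_shift_add_trunc (n+1) A⟩
  set T := PowerSeries.trunc (n+1) A
  rw [hA', add_pow_char, add_mul, add_mul, map_add, mul_pow, mul_assoc, Cart_X_pow_mul,
    Cart_poly_pow_mul, map_add, map_add, mul_assoc, PowerSeries.coeff_X_pow_mul',
    PowerSeries.coeff_X_pow_mul', if_neg (by omega), if_neg (by omega)]

lemma le_order_Cart (n : ℕ) (F : PowerSeries (MvPolynomial ι (ZMod p)))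
    (h : ((p * n : ℕ) : ℕ∞) ≤ F.order) : (n : ℕ∞) ≤ (Cart p F).order := by
  apply PowerSeries.nat_le_order
  intro i hi
  rw [coeff_Cart, PowerSeries.coeff_of_lt_order, map_zero]
  refine lt_of_lt_of_le ?_ h
  exact_mod_cast Nat.mul_lt_mul_of_pos_left hi hp.out.pos

end

end Pool.Agent.H87.PC
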