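import Pool.Agent.H87.PC.Series

/-!
# The image of `P` in the power series ring is stable under the Cartier operator
-/

namespace Pool.Agent.H87.PC

open MvPolynomial

noncomputable section

variable (p : ℕ) [hp : Fact p.Prime]

lemma Ps_C (J : ℕ) (β : ZMod p) : Ps p J (C β) = PowerSeries.C (C β) := by
  rw [show (C β : P p) = algebraMap (ZMod p) (P p) β from rfl, AlgHom.commutes,
    PowerSeries.algebraMap_apply]

open Classical in
/-- The weight of the branch `a` above level `J`. -/
def wt (a : ℕ → ℕ) (J : ℕ) : Var → ℕ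
  | .u ν => if ∃ j, J ≤ j ∧ node a j = ν then 1 else 0
  | _ => 0

/-- All coefficients are weighted homogeneous of weight `k`. -/
def WH (a : ℕ → ℕ) (J : ℕ) (k : ℕ) (F : PowerSeries (P p)) : Prop :=
  ∀ n, IsWeightedHomogeneous (wt a J) (PowerSeries.coeff n F) k

variable {p}

omit hp in
lemma WH.mul {a : ℕ → ℕ} {J k l : ℕ} {F G : PowerSeries (P p)} (hF : WH p a J k F)
    (hG : WH p a J l G) : WH p a J (k + l) (F * G) := by
  intro n
  rw [PowerSeries.coeff_mul]
  apply IsWeightedHomogeneous.sum
  intro i _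
  exact (hF i.1).mul (hG i.2)

omit hp in
lemma WH_C {a : ℕ → ℕ} {J k : ℕ} {f : P p} (hf : IsWeightedHomogeneous (wt a J) f k) :
    WH p a J k (PowerSeries.C f) := by
  intro n
  rw [PowerSeries.coeff_C]
  split
  · exact hf
  · exact isWeightedHomogeneous_zero _ _ _

lemma WH_one {a : ℕ → ℕ} {J : ℕ} : WH p a J 0 1 := by
  rw [← map_one (PowerSeries.C (R := P p))]
  exact WH_C (isWeightedHomogeneous_one _ _)

lemma WH.pow {a : ℕ → ℕ} {J k : ℕ} {F : PowerSeries (P p)} (hF : WH p a J k F) (m : ℕ) :
    WH p a J (m * k) (F ^ m) := by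
  induction m with
  | zero => simpa using WH_one
  | succ m ih =>
    rw [pow_succ, add_mul, one_mul]
    exact ih.mul hF

lemma WH_prod {a : ℕ → ℕ} {J : ℕ} {ι : Type*} (S : Finset ι) (F : ι → PowerSeries (P p))
    (k : ι → ℕ) (h : ∀ i ∈ S, WH p a J (k i) (F i)) :
    WH p a J (∑ i ∈ S, k i) (∏ i ∈ S, F i) := by
  classical
  induction S using Finset.induction_on with
  | empty => simpa using WH_one
  | insert i S hi ih =>
    rw [Finset.sum_insert hi, Finset.prod_insert hi]
    exact (h i (Finset.mem_insert_self _ _)).mul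
      (ih fun j hj => h j (Finset.mem_insert_of_mem hj))

omit hp in
lemma WH_X {a : ℕ → ℕ} {J : ℕ} : WH p a J 0 PowerSeries.X := by
  intro n
  rw [PowerSeries.coeff_X]
  split
  · exact isWeightedHomogeneous_one _ _
  · exact isWeightedHomogeneous_zero _ _ _

/-- The weight of the image of a variable. -/
lemma WH_Ps_X {a : ℕ → ℕ} {J : ℕ} (v : Var) (hu : ∀ ν, v = .u ν → ν.length < J)
    (hw : ∀ b, v = .w b → node b J = node a J → b = a) :
    WH p a J (open Classical in if v = .w a then 1 else 0) (Ps p J (X v)) := by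
  classical
  cases v with
  | t => rw [Ps_t, if_neg (by simp)]; exact WH_X
  | s =>
    rw [Ps_s, if_neg (by simp)]
    exact WH_C (by simpa [wt] using isWeightedHomogeneous_X (ZMod p) (wt a J) Var.s)
  | q =>
    rw [Ps_q, if_neg (by simp)]
    exact WH_C (by simpa [wt] using isWeightedHomogeneous_X (ZMod p) (wt a J) Var.q)
  | r ν =>
    rw [Ps_r, if_neg (by simp)]
    exact WH_C (by simpa [wt] using isWeightedHomogeneous_X (ZMod p) (wt a J) (Var.r ν))
  | u ν =>
    rw [Ps_u, if_neg (by simp)]
    apply WH_C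
    have h1 := isWeightedHomogeneous_X (ZMod p) (wt a J) (Var.u ν)
    have h2 : wt a J (Var.u ν) = 0 := by
      rw [wt, if_neg]
      rintro ⟨j, hj, rfl⟩
      have := hu _ rfl
      rw [node_length] at this
      omega
    rwa [h2] at h1
  | w b =>
    rw [Ps_w]
    intro n
    rw [W, PowerSeries.coeff_mk]
    rcases wcoef_cases p b n J with h | ⟨j, hj, h⟩
    · rw [h]; exact isWeightedHomogeneous_zero _ _ _
    · rw [h]
      have h1 := isWeightedHomogeneous_X (ZMod p) (wt a J) (Var.u (node b j))
      have h2 : wt a J (Var.u (node b j)) = if Var.w b = Var.w a then 1 else 0 := by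
        by_cases hba : b = a
        · subst hba
          rw [if_pos rfl, wt, if_pos ⟨j, hj, rfl⟩]
        · rw [if_neg (fun h' => hba (Var.w.inj h')), wt, if_neg]
          rintro ⟨j', hj', h'⟩
          have hlen : j' = j := by
            have := congrArg List.length h'
            rwa [node_length, node_length] at this
          subst hlen
          exact hba (hw b rfl (node_inj_of_le h' hj').symm)
      rwa [h2] at h1

variable (p)

/-- If a monomial involves `w_a` with exponent prime to `p`, then it is killed. -/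
lemma Cart_Ps_monomial_eq_zero {J : ℕ} (k : Var →₀ ℕ) (β : ZMod p) (a : ℕ → ℕ)
    (ha : ¬ p ∣ k (.w a)) (hu : ∀ ν, Var.u ν ∈ k.support → ν.length < J)
    (hw : ∀ b, Var.w b ∈ k.support → node b J = node a J → b = a) :
    Cart p (Ps p J (monomial k β)) = 0 := by
  classical
  have h1 : WH p a J (k (.w a)) (Ps p J (monomial k β)) := by
    rw [monomial_eq, map_mul]
    rw [Ps_C, Finsupp.prod, map_prod]
    have h3 : k (.w a) = 0 + ∑ v ∈ k.support, k v * (if v = .w a then 1 else 0) := by
      rw [zero_add]
      simp only [mul_ite, mul_one, mul_zero]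
      rw [Finset.sum_ite_eq']
      split
      · rfl
      · rename_i h
        rwa [Finsupp.notMem_support_iff] at h
    rw [h3]
    refine WH.mul (WH_C (isWeightedHomogeneous_C _ _)) ?_
    apply WH_prod
    intro v hv
    rw [map_pow]
    apply WH.pow
    apply WH_Ps_X
    · rintro ν rfl; exact hu ν hv
    · rintro b rfl h; exact hw b hv h
  ext1 n
  rw [coeff_Cart, map_zero]
  exact cart_eq_zero_of_weighted p (wt a J) _ ha _ (h1 _)

/-- Reduction of exponents modulo `p`. -/
lemma exists_reduce {ι : Type*} (m : ι →₀ ℕ) : ∃ m1 m2 : ι →₀ ℕ, m = p • m1 + m2 ∧ ∀ i, m2 i < p := by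
  refine ⟨m.mapRange (fun n => n / p) (Nat.zero_div p), m.mapRange (fun n => n % p)
    (Nat.zero_mod p), ?_, ?_⟩
  · ext i
    simp only [Finsupp.coe_add, Finsupp.coe_smul, Pi.add_apply, Pi.smul_apply,
      Finsupp.mapRange_apply, smul_eq_mul]
    exact (Nat.div_add_mod _ _).symm
  · intro i
    exact Nat.mod_lt _ hp.out.pos

lemma monomial_reduce {ι : Type*} (m1 m2 : ι →₀ ℕ) (β : ZMod p) :
    (monomial (p • m1 + m2) β : MvPolynomial ι (ZMod p)) = (monomial m1 1) ^ p * monomial m2 β := by
  rw [monomial_pow, ZMod.pow_card, monomial_mul, one_mul]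

/-- For a monomial with no `w`, `Cart` stays in the image. -/
lemma exists_Cart_of_no_w (k : Var →₀ ℕ) (β : ZMod p) (hk : ∀ a, k (.w a) = 0) :
    ∃ h, Ps p 0 h = Cart p (Ps p 0 (monomial k β)) := by
  classical
  obtain ⟨m1, m2, hm, hlt⟩ := exists_reduce p k
  rw [hm, monomial_reduce, map_mul, map_pow, Cart_pow_mul]
  have h0 : ∀ a, m2 (.w a) = 0 := by
    intro a
    have := hk a
    rw [hm] at this
    simp only [Finsupp.coe_add, Finsupp.coe_smul, Pi.add_apply, Pi.smul_apply, smul_eq_mul] at this
    omega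
  by_cases hm2 : m2 = 0
  · refine ⟨monomial m1 1 * C β, ?_⟩
    rw [map_mul]
    congr 1
    rw [hm2, show (monomial (0 : Var →₀ ℕ) β : P p) = C β from rfl, Ps_C]
    ext1 n
    rw [coeff_Cart, PowerSeries.coeff_C, PowerSeries.coeff_C]
    by_cases hn : n = 0
    · subst hn; rw [if_pos rfl, mul_zero, if_pos rfl, cart_C]
    · rw [if_neg hn, if_neg (Nat.mul_ne_zero hp.out.ne_zero hn), map_zero]
  · refine ⟨0, ?_⟩
    rw [map_zero]
    symm
    have hmt : m2 = m2.erase .t + Finsupp.single .t (m2 .t) := by
      rw [add_comm, Finsupp.single_add_erase]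
    have hPs : ∀ (m : Var →₀ ℕ) (β : ZMod p), (∀ a, m (.w a) = 0) → m .t = 0 →
        Ps p 0 (monomial m β) = PowerSeries.C (monomial m β) := by
      intro m β hmw hmt
      rw [monomial_eq, map_mul, Finsupp.prod, map_prod, map_mul, map_prod]
      congr 1
      · rw [Ps_C]
      · apply Finset.prod_congr rfl
        intro v hv
        rw [map_pow, map_pow]
        congr 1
        cases v with
        | t => exact absurd hmt (Finsupp.mem_support_iff.mp hv)
        | w a => exact absurd (hmw a) (Finsupp.mem_support_iff.mp hv)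
        | s => rw [Ps_s]
        | q => rw [Ps_q]
        | r ν => rw [Ps_r]
        | u ν => rw [Ps_u]
    have h1 : (monomial m2 β : P p) = monomial (m2.erase .t) β * X .t ^ (m2 .t) := by
      conv_lhs => rw [hmt]
      rw [X_pow_eq_monomial, monomial_mul, mul_one]
    rw [h1, map_mul, map_pow, Ps_t, hPs (m2.erase .t) β (by
      intro a; rw [Finsupp.erase_ne (by simp)]; exact h0 a) (by simp)]
    have h2 : Cart p (PowerSeries.C (monomial (m2.erase .t) β) * PowerSeries.X ^ (m2 .t)) = 0 := by
      ext1 n
      rw [coeff_Cart, PowerSeries.coeff_C_mul, PowerSeries.coeff_X_pow, map_zero]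
      by_cases h3 : p * n = m2 .t
      · rw [if_pos h3, mul_one]
        have hn : n = 0 := by
          have := hlt .t
          rw [← h3] at this
          rcases Nat.eq_zero_or_pos n with h | h
          · exact h
          · exfalso
            have : p * 1 ≤ p * n := Nat.mul_le_mul_left _ h
            omega
        have ht : m2 .t = 0 := by rw [← h3, hn, mul_zero]
        apply cart_monomial_of_not
        rintro ⟨m', hm'⟩
        apply hm2
        ext v
        by_cases hv : v = .t
        · rw [hv, ht]; rfl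
        · have h4 := DFunLike.congr_fun hm' v
          rw [Finsupp.erase_ne hv] at h4
          simp only [Finsupp.coe_smul, Pi.smul_apply, smul_eq_mul] at h4
          have h5 := hlt v
          rcases Nat.eq_zero_or_pos (m' v) with h | h
          · rw [← h4, h, mul_zero]; rfl
          · have : p * 1 ≤ p * m' v := Nat.mul_le_mul_left _ h
            omega
      · rw [if_neg h3, mul_zero, map_zero]
    rw [h2, mul_zero]

lemma degreeOf_Th_X (J : ℕ) (a : ℕ → ℕ) (v : Var) :
    degreeOf (.w a) (Th p J (X v)) ≤ open Classical in if v = .w a then 1 else 0 := by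
  classical
  by_cases hv : v = .w a
  · rw [if_pos hv, hv, Th, bind₁_X_right]
    refine (degreeOf_add_le _ _ _).trans (max_le ?_ ?_)
    · refine (degreeOf_sum_le _ _ _).trans (Finset.sup_le ?_)
      intro j _
      refine (degreeOf_mul_le _ _ _).trans ?_
      rw [degreeOf_X_pow_of_ne _ (by simp), degreeOf_X_of_ne (by simp)]
      exact Nat.zero_le _
    · refine (degreeOf_mul_le _ _ _).trans ?_
      rw [degreeOf_X_pow_of_ne _ (by simp), degreeOf_X_self]
  · rw [if_neg hv]
    by_contra hne
    have h1 : Var.w a ∈ (Th p J (X v)).vars := by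
      rw [mem_vars_iff_degreeOf]
      omega
    have h2 := (mem_vars_Th p h1).2 a rfl
    rw [vars_X, Finset.mem_singleton] at h2
    exact hv h2.symm

lemma degreeOf_Th_monomial (J : ℕ) (a : ℕ → ℕ) (m : Var →₀ ℕ) (β : ZMod p) :
    degreeOf (.w a) (Th p J (monomial m β)) ≤ m (.w a) := by
  classical
  rw [monomial_eq, map_mul, Finsupp.prod, map_prod]
  refine (degreeOf_mul_le _ _ _).trans ?_
  have h1 : degreeOf (Var.w a) (Th p J (C β)) = 0 := by
    rw [Th, bind₁_C_right, degreeOf_C]
  rw [h1, zero_add]
  refine (degreeOf_prod_le _ _ _).trans ?_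
  have h2 : ∑ v ∈ m.support, degreeOf (.w a) (Th p J (X v ^ m v)) ≤
      ∑ v ∈ m.support, m v * (if v = .w a then 1 else 0) := by
    apply Finset.sum_le_sum
    intro v _
    rw [map_pow]
    exact (degreeOf_pow_le _ _ _).trans (Nat.mul_le_mul_left _ (degreeOf_Th_X p J a v))
  refine h2.trans ?_
  simp only [mul_ite, mul_one, mul_zero]
  rw [Finset.sum_ite_eq']
  split
  · exact le_rfl
  · exact Nat.zero_le _

lemma exists_Cart_reduced (m : Var →₀ ℕ) (hm : ∀ v, m v < p) (β : ZMod p) :
    ∃ h, Ps p 0 h = Cart p (Ps p 0 (monomial m β)) := by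
  classical
  obtain ⟨J, hJ⟩ := exists_good p (monomial m β : P p)
  rw [Ps_zero_eq p J]
  set G := Th p J (monomial m β) with hG
  have hgood : Good p J G := good_Th p hJ
  have hdeg : ∀ a k, k ∈ G.support → k (.w a) < p := by
    intro a k hk
    exact lt_of_le_of_lt ((monomial_le_degreeOf _ hk).trans (degreeOf_Th_monomial p J a m β))
      (hm _)
  rw [← support_sum_monomial_coeff G, map_sum, map_sum]
  have h1 : ∀ k ∈ G.support, ∃ h, Ps p 0 h = Cart p (Ps p J (monomial k (coeff k G))) := by
    intro k hk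
    by_cases hk0 : ∀ a, k (.w a) = 0
    · obtain ⟨h, hh⟩ := exists_Cart_of_no_w p k (coeff k G) hk0
      refine ⟨h, ?_⟩
      rw [hh]
      congr 1
      rw [monomial_eq, map_mul, map_mul, Finsupp.prod, map_prod, map_prod]
      congr 1
      · rw [Ps_C, Ps_C]
      · apply Finset.prod_congr rfl
        intro v hv
        rw [map_pow, map_pow]
        congr 1
        cases v with
        | t => rw [Ps_t, Ps_t]
        | w a => exact absurd (hk0 a) (Finsupp.mem_support_iff.mp hv)
        | s => rw [Ps_s, Ps_s]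
        | q => rw [Ps_q, Ps_q]
        | r ν => rw [Ps_r, Ps_r]
        | u ν => rw [Ps_u, Ps_u]
    · push Not at hk0
      obtain ⟨a, ha⟩ := hk0
      refine ⟨0, ?_⟩
      rw [map_zero]
      symm
      have hvars : ∀ v ∈ k.support, v ∈ G.vars := fun v hv => (mem_vars_iff_mem_support v).mpr ⟨k, hk, hv⟩
      apply Cart_Ps_monomial_eq_zero p k _ a
      · intro hd
        have := Nat.le_of_dvd (Nat.pos_of_ne_zero ha) hd
        have := hdeg a k hk
        omega
      · intro ν hν
        exact hgood.1 ν (hvars _ hν)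
      · intro b hb h
        exact hgood.2 b a (hvars _ hb) (hvars _ (Finsupp.mem_support_iff.mpr ha)) h
  choose! h hh using h1
  refine ⟨∑ k ∈ G.support, h k, ?_⟩
  rw [map_sum]
  exact Finset.sum_congr rfl hh

lemma exists_Cart (f : P p) : ∃ h, Ps p 0 h = Cart p (Ps p 0 f) := by
  induction f using MvPolynomial.induction_on' with
  | monomial m β =>
    obtain ⟨m1, m2, hm, hlt⟩ := exists_reduce p m
    rw [hm, monomial_reduce, map_mul, map_pow, Cart_pow_mul]
    obtain ⟨h, hh⟩ := exists_Cart_reduced p m2 hlt β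
    exact ⟨monomial m1 1 * h, by rw [map_mul, hh]⟩
  | add f g hf hg =>
    obtain ⟨h1, hh1⟩ := hf
    obtain ⟨h2, hh2⟩ := hg
    exact ⟨h1 + h2, by rw [map_add, map_add, map_add, hh1, hh2]⟩

end

end Pool.Agent.H87.PC
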