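import Pool.Agent.H87.PC.CartClosed

/-!
# The order function, derivations, and the fraction field
-/

namespace Pool.Agent.H87.PC

open MvPolynomial

noncomputable section

variable (p : ℕ) [hp : Fact p.Prime]

/-- `u_ν ↦ u_ν - (q r_ν)^p`. -/
def th : P p →ₐ[ZMod p] P p := bind₁ (fun v => match v with
  | .u ν => X (.u ν) - (X .q * X (.r ν)) ^ p
  | .w a => X (.w a)
  | .t => X .t
  | .s => X .s
  | .q => X .q
  | .r ν => X (.r ν))

/-- `u_ν ↦ u_ν + (q r_ν)^p`. -/
def th' : P p →ₐ[ZMod p] P p := bind₁ (fun v => match v with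
  | .u ν => X (.u ν) + (X .q * X (.r ν)) ^ p
  | .w a => X (.w a)
  | .t => X .t
  | .s => X .s
  | .q => X .q
  | .r ν => X (.r ν))

lemma th_X (v : Var) (hv : ∀ ν, v ≠ .u ν) : th p (X v) = X v := by
  cases v <;> simp_all [th]

lemma th_u (ν : List ℕ) : th p (X (.u ν)) = X (.u ν) - (X .q * X (.r ν)) ^ p := by
  simp [th]

lemma th'_X (v : Var) (hv : ∀ ν, v ≠ .u ν) : th' p (X v) = X v := by
  cases v <;> simp_all [th']

lemma th'_u (ν : List ℕ) : th' p (X (.u ν)) = X (.u ν) + (X .q * X (.r ν)) ^ p := by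
  simp [th']

lemma th'_th (f : P p) : th' p (th p f) = f := by
  have : (th' p).comp (th p) = AlgHom.id _ _ := by
    apply MvPolynomial.algHom_ext
    intro v
    rw [AlgHom.comp_apply, AlgHom.id_apply]
    by_cases hv : ∃ ν, v = .u ν
    · obtain ⟨ν, rfl⟩ := hv
      rw [th_u, map_sub, map_pow, map_mul, th'_u, th'_X p _ (by simp), th'_X p _ (by simp)]
      ring
    · push Not at hv
      rw [th_X p v hv, th'_X p v hv]
  exact DFunLike.congr_fun this f

lemma th_th' (f : P p) : th p (th' p f) = f := by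
  have : (th p).comp (th' p) = AlgHom.id _ _ := by
    apply MvPolynomial.algHom_ext
    intro v
    rw [AlgHom.comp_apply, AlgHom.id_apply]
    by_cases hv : ∃ ν, v = .u ν
    · obtain ⟨ν, rfl⟩ := hv
      rw [th'_u, map_add, map_pow, map_mul, th_u, th_X p _ (by simp), th_X p _ (by simp)]
      ring
    · push Not at hv
      rw [th'_X p v hv, th_X p v hv]
  exact DFunLike.congr_fun this f

/-- The embedding of `P` in a power series ring. -/
def Phi : P p →+* PowerSeries (P p) := ((Ps p 0).comp (th p)).toRingHom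

lemma Phi_apply (f : P p) : Phi p f = Ps p 0 (th p f) := rfl

lemma Phi_injective : Function.Injective (Phi p) := by
  intro f g h
  rw [Phi_apply, Phi_apply] at h
  have h1 := Ps_zero_injective p h
  rw [← th'_th p f, h1, th'_th]

lemma Phi_t : Phi p (X .t) = PowerSeries.X := by rw [Phi_apply, th_X p _ (by simp), Ps_t]
lemma Phi_s : Phi p (X .s) = PowerSeries.C (X .s) := by rw [Phi_apply, th_X p _ (by simp), Ps_s]
lemma Phi_q : Phi p (X .q) = PowerSeries.C (X .q) := by rw [Phi_apply, th_X p _ (by simp), Ps_q]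
lemma Phi_r (ν : List ℕ) : Phi p (X (.r ν)) = PowerSeries.C (X (.r ν)) := by
  rw [Phi_apply, th_X p _ (by simp), Ps_r]
lemma Phi_w (a : ℕ → ℕ) : Phi p (X (.w a)) = W p a 0 := by
  rw [Phi_apply, th_X p _ (by simp), Ps_w]
lemma Phi_u (ν : List ℕ) :
    Phi p (X (.u ν)) = PowerSeries.C (X (.u ν) - (X .q * X (.r ν)) ^ p) := by
  rw [Phi_apply, th_u, map_sub, map_pow, map_mul, Ps_u, Ps_q, Ps_r, map_sub, map_pow, map_mul]

/-- The elements `y_ν = u_ν + (q r_ν)^p`. -/
def y (ν : List ℕ) : P p := X (.u ν) + (X .q * X (.r ν)) ^ p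

lemma Phi_y (ν : List ℕ) : Phi p (y p ν) = PowerSeries.C (X (.u ν)) := by
  rw [y, map_add, map_pow, map_mul, Phi_u, Phi_q, Phi_r, ← map_mul, ← map_pow, ← map_add]
  congr 1
  ring

/-- The `t`-adic order. -/
def ord (f : P p) : ℕ∞ := (Phi p f).order

lemma ord_mul (f g : P p) : ord p (f * g) = ord p f + ord p g := by
  rw [ord, map_mul, PowerSeries.order_mul]; rfl

lemma ord_pow (f : P p) (n : ℕ) : ord p (f ^ n) = n • ord p f := by
  rw [ord, map_pow, PowerSeries.order_pow]; rfl

lemma ord_add (f g : P p) : min (ord p f) (ord p g) ≤ ord p (f + g) := by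
  rw [ord, ord, ord, map_add]; exact PowerSeries.min_order_le_order_add _ _

lemma ord_neg (f : P p) : ord p (-f) = ord p f := by
  rw [ord, map_neg, PowerSeries.order_neg]; rfl

lemma ord_zero : ord p 0 = ⊤ := by rw [ord, map_zero, PowerSeries.order_zero]

lemma ord_one : ord p 1 = 0 := by rw [ord, map_one, PowerSeries.order_one]

lemma ord_ne_top {f : P p} (hf : f ≠ 0) : ord p f ≠ ⊤ := by
  rw [ord, Ne, PowerSeries.order_eq_top]
  intro h
  exact hf (Phi_injective p (by rw [h, map_zero]))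

lemma ord_t_pow (n : ℕ) : ord p (X .t ^ n) = n := by
  rw [ord, map_pow, Phi_t, PowerSeries.order_X_pow]

lemma ord_t_pow_add_s {n : ℕ} (hn : 0 < n) : ord p (X .t ^ n + X .s) = 0 := by
  rw [ord, map_add, map_pow, Phi_t, Phi_s]
  refine le_antisymm ?_ bot_le
  apply PowerSeries.order_le
  rw [map_add, PowerSeries.coeff_X_pow, PowerSeries.coeff_C, if_neg (by omega), if_pos rfl,
    zero_add]
  exact X_ne_zero _

/-! ### The derivations `∂/∂r_ν` -/

/-- Coefficientwise `∂/∂r_ν`. -/
def pd (ν : List ℕ) (F : PowerSeries (P p)) : PowerSeries (P p) :=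
  PowerSeries.mk fun n => pderiv (.r ν) (PowerSeries.coeff n F)

omit hp in
lemma pd_add (ν : List ℕ) (F G : PowerSeries (P p)) : pd p ν (F + G) = pd p ν F + pd p ν G := by
  ext1 n
  simp only [pd, PowerSeries.coeff_mk, map_add]

omit hp in
lemma pd_mul (ν : List ℕ) (F G : PowerSeries (P p)) :
    pd p ν (F * G) = pd p ν F * G + F * pd p ν G := by
  ext1 n
  rw [map_add, PowerSeries.coeff_mul, PowerSeries.coeff_mul, pd, PowerSeries.coeff_mk,
    PowerSeries.coeff_mul, map_sum, ← Finset.sum_add_distrib]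
  apply Finset.sum_congr rfl
  intro i _
  rw [pderiv_mul, pd, PowerSeries.coeff_mk, pd, PowerSeries.coeff_mk]

omit hp in
lemma pd_C (ν : List ℕ) (f : P p) :
    pd p ν (PowerSeries.C f) = PowerSeries.C (pderiv (.r ν) f) := by
  ext1 n
  rw [pd, PowerSeries.coeff_mk, PowerSeries.coeff_C, PowerSeries.coeff_C]
  split
  · rfl
  · rw [map_zero]

omit hp in
lemma pd_X_pow (ν : List ℕ) (n : ℕ) : pd p ν (PowerSeries.X ^ n) = 0 := by
  ext1 k
  rw [pd, PowerSeries.coeff_mk, PowerSeries.coeff_X_pow, map_zero]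
  split
  · rw [← C_1, pderiv_C]
  · rw [map_zero]

lemma pd_W (ν : List ℕ) (a : ℕ → ℕ) (J : ℕ) : pd p ν (W p a J) = 0 := by
  ext1 n
  rw [pd, PowerSeries.coeff_mk, W, PowerSeries.coeff_mk, map_zero]
  rcases wcoef_cases p a n J with h | ⟨j, _, h⟩
  · rw [h, map_zero]
  · rw [h, pderiv_X_of_ne (by simp)]

lemma Phi_pderiv_X (ν : List ℕ) (v : Var) :
    Phi p (pderiv (.r ν) (X v)) = pd p ν (Phi p (X v)) := by
  cases v with
  | t => rw [Phi_t, pderiv_X_of_ne (by simp), map_zero,
      ← pow_one (PowerSeries.X : PowerSeries (P p)), pd_X_pow]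
  | s => rw [Phi_s, pderiv_X_of_ne (by simp), map_zero, pd_C, pderiv_X_of_ne (by simp),
      map_zero]
  | q => rw [Phi_q, pderiv_X_of_ne (by simp), map_zero, pd_C, pderiv_X_of_ne (by simp),
      map_zero]
  | w a => rw [Phi_w, pderiv_X_of_ne (by simp), map_zero, pd_W]
  | r μ =>
    rw [Phi_r, pd_C]
    by_cases h : μ = ν
    · subst h; rw [pderiv_X_self, map_one, map_one]
    · rw [pderiv_X_of_ne (by simpa using h), map_zero, map_zero]
  | u μ =>
    rw [Phi_u, pderiv_X_of_ne (by simp), map_zero, pd_C, map_sub, pderiv_X_of_ne (by simp),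
      pderiv_pow, CharP.cast_eq_zero, zero_mul, zero_mul, sub_zero, map_zero]

lemma Phi_pderiv (ν : List ℕ) (f : P p) : Phi p (pderiv (.r ν) f) = pd p ν (Phi p f) := by
  induction f using MvPolynomial.induction_on with
  | C a =>
    rw [pderiv_C, map_zero, Phi_apply, th, bind₁_C_right, Ps_C, pd_C, pderiv_C, map_zero]
  | add f g hf hg => rw [map_add, map_add, map_add, hf, hg, pd_add]
  | mul_X f v hf =>
    rw [pderiv_mul, map_add, map_mul, map_mul, map_mul, pd_mul, hf, Phi_pderiv_X]

lemma ord_wronskian (ν : List ℕ) {f g : P p} (h : ord p g ≤ ord p f) :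
    ord p (g * g) ≤ ord p (g * pderiv (.r ν) f - f * pderiv (.r ν) g) := by
  by_cases hg : g = 0
  · subst hg
    have : ord p f = ⊤ := by rw [ord_zero] at h; exact top_le_iff.mp h
    by_cases hf : f = 0
    · subst hf; simp
    · exact absurd this (ord_ne_top p hf)
  set n := (Phi p g).order.toNat with hn
  have hgn : ((n : ℕ) : ℕ∞) = ord p g := by
    rw [hn, PowerSeries.coe_toNat_order]; rfl
    intro h0
    exact hg (Phi_injective p (by rw [h0, map_zero]))
  obtain ⟨G, hG⟩ : PowerSeries.X ^ n ∣ Phi p g := PowerSeries.X_pow_order_dvd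
  obtain ⟨F, hF⟩ : PowerSeries.X ^ n ∣ Phi p f := by
    rw [PowerSeries.X_pow_dvd_iff]
    intro m hm
    apply PowerSeries.coeff_of_lt_order
    refine lt_of_lt_of_le ?_ h
    rw [← hgn]
    exact_mod_cast hm
  have key : Phi p (g * pderiv (.r ν) f - f * pderiv (.r ν) g) =
      PowerSeries.X ^ (2 * n) * (G * pd p ν F - F * pd p ν G) := by
    rw [map_sub, map_mul, map_mul, Phi_pderiv, Phi_pderiv, hG, hF, pd_mul, pd_mul, pd_X_pow,
      zero_mul, zero_mul, zero_add, zero_add]
    ring
  rw [ord_mul, ← hgn, ord, key, PowerSeries.order_mul, PowerSeries.order_X_pow]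
  calc ((n : ℕ) : ℕ∞) + n = ((2 * n : ℕ) : ℕ∞) := by push_cast; ring
    _ ≤ _ := le_self_add

/-! ### The fraction field and its derivations -/

variable (K : Type) [Field K] [Algebra (P p) K] [IsFractionRing (P p) K]

/-- The inclusion `P → K`. -/
def em : P p →+* K := algebraMap (P p) K

lemma em_injective : Function.Injective (em p K) := IsFractionRing.injective (P p) K

lemma em_ne_zero {f : P p} (hf : f ≠ 0) : em p K f ≠ 0 := by
  intro h
  exact hf (em_injective p K (by rw [h, map_zero]))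

lemma exists_rep (x : K) : ∃ f g : P p, g ≠ 0 ∧ x * em p K g = em p K f := by
  obtain ⟨⟨f, g⟩, h⟩ := IsLocalization.surj (nonZeroDivisors (P p)) x
  exact ⟨f, g, nonZeroDivisors.ne_zero g.2, h⟩

/-- The ring homomorphism to dual numbers defining the derivation. -/
def dual (ν : List ℕ) : P p →+* TrivSqZeroExt K K where
  toFun f := TrivSqZeroExt.inl (em p K f) + TrivSqZeroExt.inr (em p K (pderiv (.r ν) f))
  map_one' := by
    ext <;> simp
  map_zero' := by
    ext <;> simp
  map_add' f g := by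
    ext <;> simp
  map_mul' f g := by
    ext
    · simp
    · simp [mul_comm]

/-- The extension to the fraction field. -/
def dualK (ν : List ℕ) : K →+* TrivSqZeroExt K K :=
  IsLocalization.lift (M := nonZeroDivisors (P p)) (g := dual p K ν) (by
    intro g
    rw [TrivSqZeroExt.isUnit_iff_isUnit_fst]
    simp only [dual, RingHom.coe_mk, MonoidHom.coe_mk, OneHom.coe_mk, TrivSqZeroExt.fst_add,
      TrivSqZeroExt.fst_inl, TrivSqZeroExt.fst_inr, add_zero]
    exact (em_ne_zero p K (nonZeroDivisors.ne_zero g.2)).isUnit)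

lemma dualK_em (ν : List ℕ) (f : P p) : dualK p K ν (em p K f) = dual p K ν f :=
  IsLocalization.lift_eq _ _

lemma fst_dualK (ν : List ℕ) (x : K) : (dualK p K ν x).fst = x := by
  have : (TrivSqZeroExt.fstHom K K K).toRingHom.comp (dualK p K ν) = RingHom.id _ := by
    refine IsLocalization.ringHom_ext (nonZeroDivisors (P p)) (RingHom.ext fun f => ?_)
    show (dualK p K ν (em p K f)).fst = em p K f
    rw [dualK_em]
    simp [dual]
  exact DFunLike.congr_fun this x

/-- The derivation `∂/∂r_ν` on `K`. -/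
def dK (ν : List ℕ) (x : K) : K := (dualK p K ν x).snd

lemma dK_em (ν : List ℕ) (f : P p) : dK p K ν (em p K f) = em p K (pderiv (.r ν) f) := by
  rw [dK, dualK_em]
  simp [dual]

lemma dK_add (ν : List ℕ) (x y : K) : dK p K ν (x + y) = dK p K ν x + dK p K ν y := by
  simp [dK]

lemma dK_mul (ν : List ℕ) (x y : K) : dK p K ν (x * y) = x * dK p K ν y + y * dK p K ν x := by
  rw [dK, map_mul, TrivSqZeroExt.snd_mul, fst_dualK, fst_dualK, smul_eq_mul,
    op_smul_eq_mul, dK, dK, mul_comm y]

end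

end Pool.Agent.H87.PC
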