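import Pool.Agent.H87.PC.NoSplit

/-!
# The diagonal argument
-/

namespace Pool.Agent.H87.PC

open MvPolynomial

noncomputable section

variable (p : ℕ) [hp : Fact p.Prime]
variable (K : Type) [Field K] [Algebra (P p) K] [IsFractionRing (P p) K]

lemma dK_em_mul {ν : List ℕ} {f : P p} (hf : pderiv (.r ν) f = 0) (x : K) :
    dK p K ν (em p K f * x) = em p K f * dK p K ν x := by
  rw [dK_mul, dK_em, hf, map_zero, mul_zero, add_zero]

lemma dK_sum {ι : Type*} (ν : List ℕ) (S : Finset ι) (f : ι → K) :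
    dK p K ν (∑ i ∈ S, f i) = ∑ i ∈ S, dK p K ν (f i) := by
  classical
  induction S using Finset.induction_on with
  | empty => simp [dK_zero]
  | insert i S hi ih => rw [Finset.sum_insert hi, Finset.sum_insert hi, dK_add, ih]

lemma pderiv_tp (ν : List ℕ) (n : ℕ) : pderiv (.r ν) (tp p n) = 0 := by
  rw [tp, pderiv_pow, pderiv_X_of_ne (by simp), mul_zero]

lemma dK_ts (ν : List ℕ) (n : ℕ) (x : K) :
    dK p K ν (em p K (X .t) ^ n * (em p K (X .s) * x)) =
      em p K (X .t) ^ n * (em p K (X .s) * dK p K ν x) := by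
  rw [← em_tp, dK_em_mul p K (pderiv_tp p ν n), dK_em_mul p K (pderiv_X_of_ne (by simp))]

lemma dK_t (ν : List ℕ) (n : ℕ) (x : K) :
    dK p K ν (em p K (X .t) ^ n * x) = em p K (X .t) ^ n * dK p K ν x := by
  rw [← em_tp, dK_em_mul p K (pderiv_tp p ν n)]

variable (ψ : RR p K →+ RR p K) (hψ : ∀ r x, ψ (r ^ p * x) = r * ψ x)

/-- The exponent attached to a node. -/
def en (l : List ℕ) : ℕ := l.sum + l.length

lemma exists_next (o : ℕ) (T : Finset (List ℕ)) (l : List ℕ) : ∃ m, o ≤ m ∧ l ++ [m] ∉ T := by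
  classical
  have hinj : Function.Injective (fun m : ℕ => l ++ [m]) := by
    intro a b h
    simpa using h
  let F := T.preimage (fun m => l ++ [m]) hinj.injOn
  refine ⟨max o (F.sup id + 1), le_max_left _ _, ?_⟩
  intro h
  have h1 : max o (F.sup id + 1) ∈ F := Finset.mem_preimage.mpr h
  have h2 : id (max o (F.sup id + 1)) ≤ F.sup id := Finset.le_sup h1
  have h3 := le_max_right o (F.sup id + 1)
  simp only [id] at h2
  omega

/-- Prefixes of the diagonal sequence. -/
def pre (nxt : List ℕ → ℕ) : ℕ → List ℕ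
  | 0 => []
  | j + 1 => pre nxt j ++ [nxt (pre nxt j)]

lemma node_pre (nxt : List ℕ → ℕ) (j : ℕ) : node (fun j => nxt (pre nxt j)) j = pre nxt j := by
  induction j with
  | zero => rw [node_zero]; rfl
  | succ j ih => rw [node_succ, ih]; rfl

lemma E_eq_en (a : ℕ → ℕ) (j : ℕ) : E a j = en (node a j) := by
  induction j with
  | zero => rw [E_zero, node_zero]; rfl
  | succ j ih =>
    rw [E_succ, ih, node_succ, en, en, List.sum_append, List.length_append]
    simp
    ring

lemma take_node (a : ℕ → ℕ) {i j : ℕ} (h : i ≤ j) : (node a j).take i = node a i := by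
  rw [node, node, ← List.map_take, List.take_range, min_eq_left h]

include hψ in
/-- No `p⁻¹`-linear map of `R` takes a value outside `𝔭` at `1`. -/
theorem psi_one_mem : ψ 1 ∈ pp p K := by
  classical
  by_contra hg
  obtain ⟨N, hN⟩ := exists_finset p K (ψ 1 : K)
  have hS := fun μ => exists_finset p K (FF p K ψ μ)
  choose S hS using hS
  have ht0 : em p K (X .t) ≠ 0 := em_ne_zero p K (X_ne_zero _)
  have hs0 : em p K (X .s) ≠ 0 := em_ne_zero p K (X_ne_zero _)
  have ho : ∀ ν, ∃ o : ℕ, ν ∉ N → ¬ Vge p K o (em p K (X .t) ^ en ν *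
      (em p K (X .s) * dK p K ν (FF p K ψ ν))) := by
    intro ν
    by_cases hν : ν ∈ N
    · exact ⟨0, fun h => absurd hν h⟩
    · have h1 := dK_F_ne_zero p K ψ ν hg (hN ν hν)
      obtain ⟨o, ho⟩ := exists_not_Vge p K (mul_ne_zero (pow_ne_zero (en ν) ht0)
        (mul_ne_zero hs0 h1))
      exact ⟨o, fun _ => ho⟩
  choose o ho using ho
  let T : List ℕ → Finset (List ℕ) := fun l =>
    N ∪ (Finset.range (l.length + 1)).biUnion (fun k => S (l.take k))
  have hnxt := fun l => exists_next (o l) (T l) l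
  choose nxt hnxt1 hnxt2 using hnxt
  set a : ℕ → ℕ := fun j => nxt (pre nxt j) with ha
  have hnode : ∀ j, node a j = pre nxt j := node_pre nxt
  have haj : ∀ j, a j = nxt (node a j) := by
    intro j; rw [hnode]
  have hN' : ∀ j, node a (j+1) ∉ N := by
    intro j hj
    rw [node_succ, haj] at hj
    exact hnxt2 (node a j) (Finset.mem_union_left _ hj)
  have hS' : ∀ j i, i ≤ j → node a (j+1) ∉ S (node a i) := by
    intro j i hij hj
    rw [node_succ, haj] at hj
    apply hnxt2 (node a j)
    apply Finset.mem_union_right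
    rw [Finset.mem_biUnion]
    refine ⟨i, ?_, ?_⟩
    · rw [Finset.mem_range, node_length]; omega
    · rw [take_node a hij]; exact hj
  have ho' : ∀ j, o (node a j) ≤ a j := by
    intro j
    rw [haj]
    exact hnxt1 _
  -- the derivatives of `ψ (w_a)` do not vanish
  have hne : ∀ j, dK p K (node a (j+1)) (ψ (wR p K a) : K) ≠ 0 := by
    intro j h0
    obtain ⟨b, hb⟩ := main_rel p K ψ hψ a (j+2)
    have h1 := congrArg (dK p K (node a (j+1))) hb
    rw [dK_em_mul p K (pderiv_X_of_ne (by simp)), h0, mul_zero, dK_add, dK_sum,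
      dK_t, Finset.sum_range_succ] at h1
    have h3 : ∑ i ∈ Finset.range (j+1), dK p K (node a (j+1))
        (em p K (X .t) ^ E a i * (em p K (X .s) * FF p K ψ (node a i))) = 0 := by
      apply Finset.sum_eq_zero
      intro i hi
      rw [Finset.mem_range] at hi
      rw [dK_ts, hS (node a i) _ (hS' j i (by omega)), mul_zero, mul_zero]
    rw [h3, zero_add, dK_ts] at h1
    apply ho (node a (j+1)) (hN' j)
    have h4 : em p K (X .t) ^ en (node a (j+1)) *
        (em p K (X .s) * dK p K (node a (j+1)) (FF p K ψ (node a (j+1)))) =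
        -(em p K (X .t) ^ E a (j+2) * dK p K (node a (j+1)) (b : K)) := by
      rw [← E_eq_en]
      exact eq_neg_of_add_eq_zero_left h1.symm
    rw [h4]
    apply Vge_neg
    refine Vge_mono p K ?_ (Vge_t p K (Vge_dK p K (Vge_of_mem p K b) _) _)
    have h5 := ho' (j+1)
    rw [show j + 2 = (j + 1) + 1 from rfl, E_succ]
    omega
  obtain ⟨Sf, hSf⟩ := exists_finset p K (ψ (wR p K a) : K)
  apply hne (Sf.sup List.length)
  apply hSf
  intro hmem
  have h1 : (node a (Sf.sup List.length + 1)).length ≤ Sf.sup List.length := Finset.le_sup hmem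
  rw [node_length] at h1
  omega

/-! ### Passing to the perfect closure -/

section
variable {R : Type*} [CommRing R] [CharP R p]

lemma mk_one_add (x y : R) : PerfectClosure.mk R p (1, x + y) =
    PerfectClosure.mk R p (1, x) + PerfectClosure.mk R p (1, y) := by
  rw [PerfectClosure.mk_add_mk]
  simp only [Function.iterate_one]
  rw [← map_add, frobenius_def, show (1 : ℕ) + 1 = 1 + 1 from rfl, PerfectClosure.mk_succ_pow]

lemma mk_one_mul (r x : R) : PerfectClosure.mk R p (1, r ^ p * x) =
    PerfectClosure.of R p r * PerfectClosure.mk R p (1, x) := by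
  rw [PerfectClosure.of_apply, PerfectClosure.mk_mul_mk]
  simp only [Function.iterate_one, Function.iterate_zero, id, zero_add, frobenius_def]

lemma mk_one_one : PerfectClosure.mk R p (1, 1) = 1 := by
  have := PerfectClosure.mk_succ_pow R p 0 (1 : R)
  rw [one_pow, zero_add] at this
  rw [this, PerfectClosure.one_def]

/-- The restriction of a map from the perfect closure to `R^{1/p}`. -/
def restr (φ : PerfectClosure R p →+ R) : R →+ R where
  toFun x := φ (PerfectClosure.mk R p (1, x))
  map_zero' := by rw [PerfectClosure.mk_zero_right, map_zero]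
  map_add' x y := by rw [mk_one_add, map_add]

end

theorem phi_one_mem (φ : PerfectClosure (RR p K) p →+ RR p K)
    (hφ : ∀ (r : RR p K) (x : PerfectClosure (RR p K) p),
      φ (PerfectClosure.of (RR p K) p r * x) = r * φ x) : φ 1 ∈ pp p K := by
  have h := psi_one_mem p K (restr p φ) (by
    intro r x
    show φ _ = r * φ _
    rw [mk_one_mul, hφ])
  have h1 : restr p φ 1 = φ 1 := by
    show φ _ = _
    rw [mk_one_one]
  rwa [h1] at h

/-! ### The primes of `R` -/

lemma prime_cases (I : Ideal (RR p K)) (hI : I.IsPrime) (h0 : I ≠ ⊥) :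
    (sR p K ∈ I ∧ I = pp p K) ∨ (sR p K ∉ I ∧ tR p K ∈ I ∧ I = Ideal.span {tR p K}) := by
  obtain ⟨i, j, hij⟩ := exists_pow_mem p K I h0
  by_cases hs : sR p K ∈ I
  · exact Or.inl ⟨hs, eq_pp_of_s_mem p K I hI hs⟩
  · have ht : tR p K ∈ I := by
      rcases hI.mem_or_mem hij with h | h
      · exact absurd (hI.mem_of_pow_mem _ h) hs
      · exact hI.mem_of_pow_mem _ h
    exact Or.inr ⟨hs, ht, eq_span_t p K I hI hs ht⟩

lemma isMaximal_of_prime (I : Ideal (RR p K)) (hI : I.IsPrime) (h0 : I ≠ ⊥) : I.IsMaximal := by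
  obtain ⟨M, hM, hIM⟩ := Ideal.exists_le_maximal I hI.ne_top
  have hM0 : M ≠ ⊥ := fun h => h0 (le_bot_iff.mp (h ▸ hIM))
  rcases prime_cases p K I hI h0 with ⟨hs, h⟩ | ⟨hs, ht, h⟩
  · rw [h, ← eq_pp_of_s_mem p K M hM.isPrime (hIM hs)]
    exact hM
  · rcases prime_cases p K M hM.isPrime hM0 with ⟨hs', h'⟩ | ⟨hs', ht', h'⟩
    · exact absurd (not_both p K M hM.isPrime hs' (hIM ht)) (fun h => h)
    · rw [h, ← h']; exact hM

lemma finite_primes : {I : Ideal (RR p K) | I.IsPrime}.Finite := by
  apply Set.Finite.subset (Set.toFinite {(⊥ : Ideal (RR p K)), pp p K, Ideal.span {tR p K}})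
  intro I hI
  by_cases h0 : I = ⊥
  · simp [h0]
  · rcases prime_cases p K I hI h0 with ⟨_, h⟩ | ⟨_, _, h⟩
    · simp [h]
    · simp [h]

end

end Pool.Agent.H87.PC
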