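import Pool.Agent.H87.PC.Solid

/-!
# No `p⁻¹`-linear map of `R` sends `1` outside `𝔭`
-/

namespace Pool.Agent.H87.PC

open MvPolynomial

noncomputable section

variable (p : ℕ) [hp : Fact p.Prime]
variable (K : Type) [Field K] [Algebra (P p) K] [IsFractionRing (P p) K]

/-! ### Derivations and `D` -/

lemma pderiv_comm {φ : P p →ₐ[ZMod p] P p} (i : Var)
    (h : ∀ v, pderiv i (φ (X v)) = φ (pderiv i (X v))) (f : P p) :
    pderiv i (φ f) = φ (pderiv i f) := by
  induction f using MvPolynomial.induction_on with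
  | C a =>
    rw [show (C a : P p) = algebraMap (ZMod p) (P p) a from rfl, AlgHom.commutes]
    rw [show (algebraMap (ZMod p) (P p) a) = C a from rfl, pderiv_C, map_zero]
  | add f g hf hg => rw [map_add, map_add, map_add, map_add, hf, hg]
  | mul_X f v hf =>
    rw [map_mul φ f, pderiv_mul, pderiv_mul, map_add, map_mul, map_mul, hf, h]

lemma pderiv_mem_D (ν : List ℕ) {f : P p} (hf : f ∈ Dsub p) : pderiv (.r ν) f ∈ Dsub p := by
  have h1 : ∀ f : P p, pderiv (.r ν) (sg p f) = sg p (pderiv (.r ν) f) := by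
    apply pderiv_comm
    intro v
    by_cases hv : v = .q
    · subst hv
      rw [sg_q, pderiv_X_of_ne (by simp), map_zero]
      by_cases h : p = 2
      · have h1 : sgq p = X .q + 1 := if_pos h
        rw [h1, map_add, pderiv_X_of_ne (by simp), pderiv_one, add_zero]
      · have h1 : sgq p = -X .q := if_neg h
        rw [h1, map_neg, pderiv_X_of_ne (by simp), neg_zero]
    · rw [sg_X p v hv]
      by_cases hv' : v = .r ν
      · subst hv'; rw [pderiv_X_self, map_one]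
      · rw [pderiv_X_of_ne hv', map_zero]
  have h2 : ∀ f : P p, pderiv (.r ν) (pi0 p f) = pi0 p (pderiv (.r ν) f) := by
    apply pderiv_comm
    intro v
    by_cases hv : v = .s
    · subst hv
      rw [pi0_s, map_zero, pderiv_X_of_ne (by simp), map_zero]
    · rw [pi0_X p v hv]
      by_cases hv' : v = .r ν
      · subst hv'; rw [pderiv_X_self, map_one]
      · rw [pderiv_X_of_ne hv', map_zero]
  rw [mem_D] at *
  rw [← h1, ← h2, ← h2, hf]

lemma dK_zero (ν : List ℕ) : dK p K ν 0 = 0 := by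
  have := dK_em p K ν 0
  rwa [map_zero, map_zero, map_zero] at this

lemma dK_mul_em {ν : List ℕ} {x : K} {f g : P p} (h : x * em p K g = em p K f) :
    dK p K ν x * em p K (g * g) =
      em p K (g * pderiv (.r ν) f - f * pderiv (.r ν) g) := by
  have h1 := congrArg (dK p K ν) h
  rw [dK_mul, dK_em, dK_em] at h1
  rw [map_mul, map_sub, map_mul, map_mul, ← h1, ← h]
  ring

/-- Only finitely many `∂/∂r_ν` are nonzero on a given element. -/
lemma exists_finset (x : K) : ∃ S : Finset (List ℕ), ∀ ν ∉ S, dK p K ν x = 0 := by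
  classical
  obtain ⟨f, g, hg, h⟩ := exists_rep p K x
  have hinj : Function.Injective Var.r := fun a b hab => Var.r.inj hab
  refine ⟨(f.vars ∪ g.vars).preimage Var.r hinj.injOn, ?_⟩
  intro ν hν
  rw [Finset.mem_preimage, Finset.mem_union, not_or] at hν
  have h1 := dK_mul_em p K (ν := ν) h
  rw [pderiv_eq_zero_of_notMem_vars hν.1, pderiv_eq_zero_of_notMem_vars hν.2, mul_zero, mul_zero,
    sub_zero, map_zero] at h1
  exact (mul_eq_zero.mp h1).resolve_right (em_ne_zero p K (mul_ne_zero hg hg))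

/-! ### Divisibility by powers of `t` -/

/-- `x` has `t`-adic valuation at least `n`. -/
def Vge (n : ℕ) (x : K) : Prop :=
  ∃ f g : P p, g ≠ 0 ∧ ord p g + n ≤ ord p f ∧ x * em p K g = em p K f

lemma Vge_of_mem (x : RR p K) : Vge p K 0 (x : K) := by
  obtain ⟨f, hf, g, hg, h⟩ := x.2
  exact ⟨f, g, ne_zero_of_pi0 p h.1, by simpa using h.2.1, h.2.2⟩

lemma Vge_dK {x : K} (h : Vge p K 0 x) (ν : List ℕ) : Vge p K 0 (dK p K ν x) := by
  obtain ⟨f, g, hg, ho, h⟩ := h
  refine ⟨_, g * g, mul_ne_zero hg hg, ?_, dK_mul_em p K h⟩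
  have := ord_wronskian p ν (f := f) (g := g) (by simpa using ho)
  simpa using this

lemma Vge_t {x : K} (h : Vge p K 0 x) (n : ℕ) : Vge p K n (em p K (X .t) ^ n * x) := by
  obtain ⟨f, g, hg, ho, h⟩ := h
  refine ⟨tp p n * f, g, hg, ?_, ?_⟩
  · rw [ord_mul, ord_tp, add_comm]
    apply add_le_add le_rfl
    simpa using ho
  · rw [map_mul, em_tp, ← h]; ring

lemma Vge_neg {x : K} {n : ℕ} (h : Vge p K n x) : Vge p K n (-x) := by
  obtain ⟨f, g, hg, ho, h⟩ := h
  refine ⟨-f, g, hg, ?_, ?_⟩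
  · rwa [ord_neg]
  · rw [map_neg, ← h]; ring

lemma Vge_mono {x : K} {m n : ℕ} (hmn : m ≤ n) (h : Vge p K n x) : Vge p K m x := by
  obtain ⟨f, g, hg, ho, h⟩ := h
  refine ⟨f, g, hg, le_trans ?_ ho, h⟩
  apply add_le_add le_rfl
  exact_mod_cast hmn

lemma exists_not_Vge {x : K} (hx : x ≠ 0) : ∃ n, ¬ Vge p K n x := by
  obtain ⟨f, g, hg, h⟩ := exists_rep p K x
  have hf : f ≠ 0 := by
    rintro rfl
    rw [map_zero] at h
    exact hx ((mul_eq_zero.mp h).resolve_right (em_ne_zero p K hg))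
  obtain ⟨m, hm⟩ : ∃ m : ℕ, (m : ℕ∞) = ord p f := ⟨_, ENat.natCast_toNat (ord_ne_top p hf)⟩
  refine ⟨m + 1, ?_⟩
  rintro ⟨f', g', hg', ho, h'⟩
  obtain ⟨k, hk⟩ : ∃ m : ℕ, (m : ℕ∞) = ord p g := ⟨_, ENat.natCast_toNat (ord_ne_top p hg)⟩
  obtain ⟨k', hk'⟩ : ∃ m : ℕ, (m : ℕ∞) = ord p g' := ⟨_, ENat.natCast_toNat (ord_ne_top p hg')⟩
  have e : f * g' = f' * g := by
    apply em_injective p K
    rw [map_mul, map_mul, ← h, ← h']
    ring
  have e2 := congrArg (ord p) e
  rw [ord_mul, ord_mul, ← hm, ← hk, ← hk'] at e2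
  rw [← hk'] at ho
  have h3 : ((k' + (m + 1) + k : ℕ) : ℕ∞) ≤ ((m + k' : ℕ) : ℕ∞) := by
    push_cast
    rw [e2]
    apply add_le_add _ le_rfl
    exact_mod_cast ho
  have h4 : k' + (m + 1) + k ≤ m + k' := by exact_mod_cast h3
  omega

/-! ### The relations -/

/-- Remainders: `w_a - ∑_{j<J} t^(p E_j) y_{a|j}`. -/
def rem (a : ℕ → ℕ) (J : ℕ) : P p :=
  X (.w a) - ∑ j ∈ Finset.range J, tp p (p * E a j) * y p (node a j)

lemma Phi_rem (a : ℕ → ℕ) (J : ℕ) : Phi p (rem p a J) = PowerSeries.X ^ (p * E a J) * W p a J := by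
  rw [rem, map_sub, Phi_w, W_expand p a J, map_sum]
  have : ∀ j ∈ Finset.range J, Phi p (tp p (p * E a j) * y p (node a j)) =
      PowerSeries.X ^ (p * E a j) * PowerSeries.C (X (Var.u (node a j))) := by
    intro j _
    rw [map_mul, Phi_y, tp, map_pow, Phi_t]
  rw [Finset.sum_congr rfl this]
  ring

lemma le_ord_rem (a : ℕ → ℕ) (J : ℕ) : ((p * E a J : ℕ) : ℕ∞) ≤ ord p (rem p a J) := by
  rw [ord, Phi_rem, PowerSeries.order_mul, PowerSeries.order_X_pow]
  exact le_self_add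

variable (ψ : RR p K →+ RR p K) (hψ : ∀ r x, ψ (r ^ p * x) = r * ψ x)

/-- `u_ν` as an element of `R`. -/
def uR (ν : List ℕ) : RR p K := emR p K (X (.u ν)) (X_mem_D p (by simp))
/-- `w_a` as an element of `R`. -/
def wR (a : ℕ → ℕ) : RR p K := emR p K (X (.w a)) (X_mem_D p (by simp))
/-- `s q r_ν` as an element of `R`. -/
def sqrR (ν : List ℕ) : RR p K :=
  emR p K (X .s * (X .q * X (.r ν))) (D_of_pi0 p (by rw [map_mul, pi0_s, zero_mul]))

lemma coe_uR (ν : List ℕ) : (uR p K ν : K) = em p K (X (.u ν)) := rfl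
lemma coe_wR (a : ℕ → ℕ) : (wR p K a : K) = em p K (X (.w a)) := rfl
lemma coe_sqrR (ν : List ℕ) : (sqrR p K ν : K) =
    em p K (X .s) * (em p K (X .q) * em p K (X (.r ν))) := by
  rw [← map_mul, ← map_mul]; rfl

/-- `s^p y_ν` as an element of `R`. -/
def syR (ν : List ℕ) : RR p K := sR p K ^ p * uR p K ν + sqrR p K ν ^ p * 1

lemma coe_syR (ν : List ℕ) : (syR p K ν : K) = em p K (X .s) ^ p * em p K (y p ν) := by
  rw [syR, Subring.coe_add, Subring.coe_mul, Subring.coe_mul, Subring.coe_pow, Subring.coe_pow,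
    Subring.coe_one, coe_sR, coe_uR, coe_sqrR, y, map_add, map_pow, map_mul]
  ring

/-- The element `F_ν = ψ(u_ν) + q r_ν ψ(1)`. -/
def FF (ν : List ℕ) : K :=
  (ψ (uR p K ν) : K) + em p K (X .q) * em p K (X (.r ν)) * (ψ 1 : K)

include hψ in
lemma psi_syR (ν : List ℕ) : (ψ (syR p K ν) : K) = em p K (X .s) * FF p K ψ ν := by
  rw [syR, map_add, hψ, hψ, Subring.coe_add, Subring.coe_mul, Subring.coe_mul, coe_sR, coe_sqrR,
    FF]
  ring

lemma exists_zR (a : ℕ → ℕ) (J : ℕ) : ∃ z : RR p K,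
    (z : K) * em p K (tp p (p * E a J)) = em p K (X .s ^ p * rem p a J) := by
  apply exists_mk
  · apply D_of_pi0
    rw [map_mul, map_pow, pi0_s, zero_pow hp.out.ne_zero, zero_mul]
  · exact tp_mem_D p _
  · rw [tp, map_pow, pi0_X p _ (by simp)]
    exact pow_ne_zero _ (X_ne_zero _)
  · rw [ord_tp, ord_mul, ord_pow, ord_s, smul_zero, zero_add]
    exact le_ord_rem p a J

include hψ in
/-- The main relation. -/
lemma main_rel (a : ℕ → ℕ) (J : ℕ) : ∃ b : RR p K,
    em p K (X .s) * (ψ (wR p K a) : K) =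
      ∑ j ∈ Finset.range J, em p K (X .t) ^ E a j * (em p K (X .s) * FF p K ψ (node a j)) +
        em p K (X .t) ^ E a J * (b : K) := by
  obtain ⟨z, hz⟩ := exists_zR p K a J
  refine ⟨ψ z, ?_⟩
  have h1 : sR p K ^ p * wR p K a = ∑ j ∈ Finset.range J, (tR p K ^ E a j) ^ p * syR p K (node a j) +
      (tR p K ^ E a J) ^ p * z := by
    apply Subtype.ext
    rw [Subring.coe_mul, Subring.coe_pow, coe_sR, coe_wR, Subring.coe_add,
      ← (RR p K).subtype_apply (∑ j ∈ Finset.range J, _), map_sum]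
    simp only [Subring.subtype_apply, Subring.coe_mul, Subring.coe_pow, coe_tR, coe_syR]
    have h2 : em p K (X .t) ^ (p * E a J) * (z : K) = em p K (X .s) ^ p *
        (em p K (X (.w a)) - ∑ j ∈ Finset.range J, em p K (X .t) ^ (p * E a j) *
          em p K (y p (node a j))) := by
      rw [← em_tp, mul_comm, hz, rem, map_mul, map_pow, map_sub, map_sum]
      congr 2
      apply Finset.sum_congr rfl
      intro j _
      rw [map_mul, em_tp]
    have h3 : ∀ n, (em p K (X .t) ^ n) ^ p = em p K (X .t) ^ (p * n) := by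
      intro n; rw [← pow_mul, mul_comm]
    rw [h3, h2, mul_sub, Finset.mul_sum]
    have h4 : ∀ j ∈ Finset.range J, (em p K (X .t) ^ E a j) ^ p *
        (em p K (X .s) ^ p * em p K (y p (node a j))) =
        em p K (X .s) ^ p * (em p K (X .t) ^ (p * E a j) * em p K (y p (node a j))) := by
      intro j _
      rw [h3]; ring
    rw [Finset.sum_congr rfl h4]
    ring
  have h5 := congrArg ψ h1
  rw [hψ, map_add, hψ, map_sum] at h5
  have h6 := congrArg (fun x : RR p K => (x : K)) h5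
  simp only [Subring.coe_mul, Subring.coe_add, coe_sR, Subring.coe_pow, coe_tR] at h6
  rw [h6, ← (RR p K).subtype_apply (∑ j ∈ Finset.range J, _), map_sum]
  congr 1
  apply Finset.sum_congr rfl
  intro j _
  rw [hψ, Subring.subtype_apply, Subring.coe_mul, psi_syR p K ψ hψ, Subring.coe_pow, coe_tR]

/-! ### Nonvanishing of `∂ F_ν / ∂ r_ν` -/

lemma dK_F_ne_zero (ν : List ℕ) (hg : ψ 1 ∉ pp p K)
    (hd : dK p K ν (ψ 1 : K) = 0) : dK p K ν (FF p K ψ ν) ≠ 0 := by
  intro h0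
  obtain ⟨α, hα, β, hβ, hρ⟩ := (ψ (uR p K ν)).2
  obtain ⟨γ, hγ, δ, hδ, hr⟩ := (ψ 1).2
  have hγ0 : pi0 p γ ≠ 0 := fun h => hg ((mem_pp_iff p K hγ hδ hr).mpr h)
  have h3 := dK_mul_em p K (ν := ν) hρ.2.2
  have h4 : dK p K ν (FF p K ψ ν) = dK p K ν (ψ (uR p K ν) : K) + em p K (X .q) * (ψ 1 : K) := by
    rw [FF, dK_add, dK_mul, dK_mul, hd, dK_em, dK_em, pderiv_X_self,
      pderiv_X_of_ne (by simp : (Var.q) ≠ Var.r ν), map_zero (em p K), map_one (em p K)]
    ring
  rw [h4] at h0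
  have h5 : (β * pderiv (.r ν) α - α * pderiv (.r ν) β) * δ + X .q * (γ * (β * β)) = 0 := by
    apply em_injective p K
    have h6 : dK p K ν (ψ (uR p K ν) : K) = - (em p K (X .q) * (ψ 1 : K)) :=
      eq_neg_of_add_eq_zero_left h0
    rw [map_add, map_mul (em p K) _ δ, ← h3, h6, map_zero (em p K)]
    simp only [map_mul]
    rw [← hr.2.2]
    ring
  set A := (β * pderiv (.r ν) α - α * pderiv (.r ν) β) * δ with hA
  set B := γ * (β * β) with hB
  have hAD : A ∈ Dsub p := (Dsub p).mul_mem ((Dsub p).sub_mem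
    ((Dsub p).mul_mem hβ (pderiv_mem_D p ν hα)) ((Dsub p).mul_mem hα (pderiv_mem_D p ν hβ))) hδ
  have hBD : B ∈ Dsub p := (Dsub p).mul_mem hγ ((Dsub p).mul_mem hβ hβ)
  have hB0 : pi0 p B ≠ 0 := by
    rw [hB, map_mul, map_mul]
    exact mul_ne_zero hγ0 (mul_ne_zero hρ.1 hρ.1)
  have e1 := congrArg (pi0 p) h5
  have e2 := congrArg (fun f => pi0 p (sg p f)) h5
  simp only [map_add, map_mul, sg_q, map_zero] at e1 e2
  rw [mem_D] at hAD hBD
  rw [hAD, hBD, pi0_sgq] at e2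
  rw [pi0_X p _ (by simp : Var.q ≠ Var.s)] at e1
  have e3 : del p * pi0 p B = 0 := by
    rw [del]
    linear_combination e1 - e2
  rcases mul_eq_zero.mp e3 with h | h
  · exact del_ne_zero p h
  · exact hB0 h

end

end Pool.Agent.H87.PC
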