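import Pool.Agent.H87.PC.Ring

/-!
# `R` is Noetherian
-/

namespace Pool.Agent.H87.PC

open MvPolynomial

noncomputable section

variable (p : ℕ) [hp : Fact p.Prime]
variable (K : Type) [Field K] [Algebra (P p) K] [IsFractionRing (P p) K]

/-- Numerators of the coefficients. -/
def n0 (f : P p) : P p := del p * (X .q * sg p f - sgq p * f)
/-- Numerators of the coefficients. -/
def n1 (f : P p) : P p := del p * (f - sg p f)

lemma n0_mem (f : P p) : n0 p f ∈ Dsub p := by
  apply D_of_sg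
  rw [n0, map_mul, map_sub, map_mul, map_mul, sg_sg, sg_del, sg_sgq, sg_q]
  ring

lemma n1_mem (f : P p) : n1 p f ∈ Dsub p := by
  apply D_of_sg
  rw [n1, map_mul, map_sub, sg_sg, sg_del]
  ring

lemma n_eq (f : P p) : n0 p f + X .q * n1 p f = del p * del p * f := by
  rw [n0, n1, del]
  ring

lemma exists_mk {f g : P p} (hf : f ∈ Dsub p) (hg : g ∈ Dsub p) (h0 : pi0 p g ≠ 0)
    (ho : ord p g ≤ ord p f) : ∃ z : RR p K, (z : K) * em p K g = em p K f := by
  have hg0 := em_ne_zero p K (ne_zero_of_pi0 p h0)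
  exact ⟨⟨em p K f / em p K g, f, hf, g, hg, h0, ho, div_mul_cancel₀ _ hg0⟩,
    div_mul_cancel₀ _ hg0⟩

lemma ord_aux (m : ℕ) (f g h : P p) (hm : (m : ℕ∞) = ord p g) (hh : ord p h = 0) :
    ord p (h * (g * Tn p (m+1))) ≤ ord p (f * tp p (m+1)) := by
  rw [ord_mul, ord_mul, ord_mul, ord_tp, ord_Tn p (Nat.succ_pos m), add_zero, ← hm, hh, zero_add]
  refine le_trans ?_ le_add_self
  exact_mod_cast Nat.le_succ m

lemma field_aux {K : Type} [Field K] {X0 X1 X2 S Q F G T TT N0 N1 DD x : K} (hG : G ≠ 0)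
    (hD : DD ≠ 0) (hTT : TT ≠ 0) (e1 : N0 + Q * N1 = DD * DD * F) (e2 : TT = T + S)
    (h0 : X0 * (DD * DD * (G * TT)) = N0 * T) (h1 : X1 * (DD * DD * (G * TT)) = N1 * T)
    (h2 : X2 * (G * TT) = S * F) (hx : x * G = S * F) : x = S * (X0 + X2) + S * Q * X1 := by
  have hDG : DD * DD * (G * TT) ≠ 0 := mul_ne_zero (mul_ne_zero hD hD) (mul_ne_zero hG hTT)
  apply mul_right_cancel₀ hDG
  have a1 : x * (DD * DD * (G * TT)) = S * F * (DD * DD * TT) := by
    linear_combination (DD * DD * TT) * hx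
  rw [a1]
  have a2 : (S * (X0 + X2) + S * Q * X1) * (DD * DD * (G * TT)) =
      S * (N0 * T) + S * (DD * DD) * (S * F) + S * Q * (N1 * T) := by
    linear_combination S * h0 + S * Q * h1 + S * (DD * DD) * h2
  rw [a2, e2]
  linear_combination (-(S * T)) * e1

lemma sR_mem_pp : sR p K ∈ pp p K := by
  rw [mem_pp]
  refine ⟨_, X_mem_D p (v := .s) (by simp), 1, (Dsub p).one_mem, Rep_em _, pi0_s p⟩

lemma sqR_mem_pp : sqR p K ∈ pp p K := by
  rw [mem_pp]
  have h := Rep_em (K := K) (X Var.s * X Var.q : P p)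
  have h0 : pi0 p (X Var.s * X Var.q) = 0 := by rw [map_mul, pi0_s, zero_mul]
  exact ⟨_, D_of_pi0 p h0, 1, (Dsub p).one_mem, h, h0⟩

lemma pp_eq_span : pp p K = Ideal.span {sR p K, sqR p K} := by
  apply le_antisymm
  · rintro x ⟨f, hf, g, hg, h, h0⟩
    obtain ⟨f', rfl⟩ := X_dvd_of_kill_eq_zero p (v := .s) h0
    have hgne := ne_zero_of_pi0 p h.1
    have hg0 := em_ne_zero p K hgne
    obtain ⟨m, hm'⟩ : ∃ m : ℕ, (m : ℕ∞) = ord p g :=
      ⟨_, ENat.natCast_toNat (ord_ne_top p hgne)⟩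
    have hT0 : em p K (Tn p (m+1)) ≠ 0 := em_ne_zero p K (ne_zero_of_pi0 p (pi0_Tn p _))
    have hd0 : em p K (del p) ≠ 0 := em_ne_zero p K (del_ne_zero p)
    have hGT : g * Tn p (m+1) ∈ Dsub p := (Dsub p).mul_mem hg (Tn_mem_D p _)
    have hpGT : pi0 p (g * Tn p (m+1)) ≠ 0 := by
      rw [map_mul]; exact mul_ne_zero h.1 (pi0_Tn p _)
    have hdd : del p * del p ∈ Dsub p := by
      apply D_of_sg
      rw [map_mul, sg_del]; ring
    have hpd : pi0 p (del p * del p * (g * Tn p (m+1))) ≠ 0 := by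
      rw [map_mul, map_mul, pi0_del]
      exact mul_ne_zero (mul_ne_zero (del_ne_zero p) (del_ne_zero p)) hpGT
    have hod : ord p (del p * del p) = 0 := by rw [ord_mul, ord_del, add_zero]
    obtain ⟨z0, hz0⟩ := exists_mk p K ((Dsub p).mul_mem (n0_mem p f') (tp_mem_D p (m+1)))
      ((Dsub p).mul_mem hdd hGT) hpd (ord_aux p m _ g _ hm' hod)
    obtain ⟨z1, hz1⟩ := exists_mk p K ((Dsub p).mul_mem (n1_mem p f') (tp_mem_D p (m+1)))
      ((Dsub p).mul_mem hdd hGT) hpd (ord_aux p m _ g _ hm' hod)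
    obtain ⟨z2, hz2⟩ := exists_mk p K hf hGT hpGT (by
      rw [ord_mul p g, ord_Tn p (Nat.succ_pos m), add_zero]
      exact h.2.1)
    have key : x = sR p K * (z0 + z2) + sqR p K * z1 := by
      apply Subtype.ext
      rw [Subring.coe_add, Subring.coe_mul, Subring.coe_mul, Subring.coe_add, coe_sR, coe_sqR,
        map_mul]
      have e1 := congrArg (em p K) (n_eq p f')
      rw [map_add, map_mul, map_mul, map_mul] at e1
      have e2 : em p K (Tn p (m+1)) = em p K (tp p (m+1)) + em p K (X .s) := by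
        rw [Tn, map_add]
      simp only [map_mul] at hz0 hz1 hz2
      have hx := h.2.2
      rw [map_mul] at hx
      exact field_aux hg0 hd0 hT0 e1 e2 hz0 hz1 hz2 hx
    rw [key]
    exact Ideal.add_mem _ (Ideal.mul_mem_right _ _ (Ideal.subset_span (by simp)))
      (Ideal.mul_mem_right _ _ (Ideal.subset_span (by simp)))
  · rw [Ideal.span_le]
    rintro z hz
    rcases hz with rfl | hz
    · exact sR_mem_pp p K
    · rw [Set.mem_singleton_iff] at hz
      subst hz
      exact sqR_mem_pp p K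

lemma isNoetherianRing_RR : IsNoetherianRing (RR p K) := by
  apply IsNoetherianRing.of_prime_ne_bot
  intro I hI hI0
  obtain ⟨i, j, hij⟩ := exists_pow_mem p K I hI0
  by_cases hs : sR p K ∈ I
  · rw [eq_pp_of_s_mem p K I hI hs, pp_eq_span p K]
    classical
    exact ⟨{sR p K, sqR p K}, by simp⟩
  · have ht : tR p K ∈ I := by
      rcases hI.mem_or_mem hij with h | h
      · exact absurd (hI.mem_of_pow_mem _ h) hs
      · exact hI.mem_of_pow_mem _ h
    rw [eq_span_t p K I hI hs ht]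
    exact ⟨{tR p K}, by simp⟩

end

end Pool.Agent.H87.PC
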