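import Pool.Agent.H87.PC.Field

/-!
# The ring `R`
-/

namespace Pool.Agent.H87.PC

open MvPolynomial

noncomputable section

variable (p : ℕ) [hp : Fact p.Prime]

/-- The image of `q` under the involution `σ`: `q + 1` if `p = 2` and `-q` otherwise. -/
def sgq : P p := if p = 2 then X .q + 1 else -X .q

/-- The involution `σ`: `q ↦ -q` if `p ≠ 2`, and `q ↦ q + 1` if `p = 2`. -/
def sg : P p →ₐ[ZMod p] P p := bind₁ (fun v => match v with
  | .q => sgq p
  | .u ν => X (.u ν)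
  | .w a => X (.w a)
  | .t => X .t
  | .s => X .s
  | .r ν => X (.r ν))

lemma sg_X (v : Var) (hv : v ≠ .q) : sg p (X v) = X v := by
  cases v <;> simp_all [sg]

lemma sg_q : sg p (X .q) = sgq p := by simp [sg]

lemma two_eq_zero (h : p = 2) : (2 : P p) = 0 := by
  have h1 : ((p : ℕ) : P p) = 0 := CharP.cast_eq_zero _ _
  have h2 : ((p : ℕ) : P p) = ((2 : ℕ) : P p) := congrArg (fun n : ℕ => (n : P p)) h
  rw [h2] at h1
  exact_mod_cast h1

lemma two_ne_zero' (h2 : p ≠ 2) : (2 : ZMod p) ≠ 0 := by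
  intro h
  have h1 : ((2 : ℕ) : ZMod p) = 0 := by exact_mod_cast h
  rw [ZMod.natCast_eq_zero_iff] at h1
  have := (Nat.prime_dvd_prime_iff_eq hp.out Nat.prime_two).mp h1
  exact h2 this

lemma two_ne_zeroP (h2 : p ≠ 2) : (2 : P p) ≠ 0 := by
  rw [show (2 : P p) = C (2 : ZMod p) from (map_ofNat C 2).symm, Ne, C_eq_zero]
  exact two_ne_zero' p h2

lemma sg_sgq : sg p (sgq p) = X .q := by
  by_cases h : p = 2
  · have h1 : sgq p = X .q + 1 := if_pos h
    rw [h1, map_add, map_one, sg_q, h1]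
    linear_combination two_eq_zero p h
  · have h1 : sgq p = -X .q := if_neg h
    rw [h1, map_neg, sg_q, h1, neg_neg]

lemma sg_sg (f : P p) : sg p (sg p f) = f := by
  have : (sg p).comp (sg p) = AlgHom.id _ _ := by
    apply MvPolynomial.algHom_ext
    intro v
    rw [AlgHom.comp_apply, AlgHom.id_apply]
    by_cases hv : v = .q
    · subst hv
      rw [sg_q, sg_sgq]
    · rw [sg_X p v hv, sg_X p v hv]
  exact DFunLike.congr_fun this f

/-- Setting `s = 0`. -/
def pi0 : P p →ₐ[ZMod p] P p := kill p .s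

lemma pi0_s : pi0 p (X .s) = 0 := by simp [pi0, kill]
lemma pi0_X (v : Var) (hv : v ≠ .s) : pi0 p (X v) = X v := by simp [pi0, kill, hv]

lemma pi0_sgq : pi0 p (sgq p) = sgq p := by
  by_cases h : p = 2
  · have h1 : sgq p = X .q + 1 := if_pos h
    rw [h1, map_add, map_one, pi0_X p _ (by simp)]
  · have h1 : sgq p = -X .q := if_neg h
    rw [h1, map_neg, pi0_X p _ (by simp)]

lemma pi0_sg (f : P p) : pi0 p (sg p f) = sg p (pi0 p f) := by
  have : (pi0 p).comp (sg p) = (sg p).comp (pi0 p) := by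
    apply MvPolynomial.algHom_ext
    intro v
    rw [AlgHom.comp_apply, AlgHom.comp_apply]
    by_cases hs : v = .s
    · subst hs
      rw [sg_X p _ (by simp), pi0_s, map_zero]
    · rw [pi0_X p v hs]
      by_cases hv : v = .q
      · subst hv
        rw [sg_q, pi0_sgq]
      · rw [sg_X p v hv, pi0_X p v hs]
  exact DFunLike.congr_fun this f

lemma pi0_pi0 (f : P p) : pi0 p (pi0 p f) = pi0 p f := by
  have : (pi0 p).comp (pi0 p) = pi0 p := by
    apply MvPolynomial.algHom_ext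
    intro v
    rw [AlgHom.comp_apply]
    by_cases hs : v = .s
    · subst hs
      rw [pi0_s, map_zero]
    · rw [pi0_X p v hs, pi0_X p v hs]
  exact DFunLike.congr_fun this f

/-- The subring of polynomials whose value at `s = 0` is invariant under `σ`. -/
def Dsub : Subring (P p) := ((pi0 p).comp (sg p)).toRingHom.eqLocus (pi0 p).toRingHom

lemma mem_D {f : P p} : f ∈ Dsub p ↔ pi0 p (sg p f) = pi0 p f := Iff.rfl

lemma D_of_pi0 {f : P p} (h : pi0 p f = 0) : f ∈ Dsub p := by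
  rw [mem_D, pi0_sg, h, map_zero]

lemma D_of_sg {f : P p} (h : sg p f = f) : f ∈ Dsub p := by
  rw [mem_D, h]

lemma X_mem_D {v : Var} (hv : v ≠ .q) : X v ∈ Dsub p := D_of_sg p (sg_X p v hv)

lemma C_mem_D (α : ZMod p) : C α ∈ Dsub p := D_of_sg p (by rw [sg, bind₁_C_right])

lemma norm_mem_D (g : P p) : g * sg p g ∈ Dsub p := D_of_sg p (by rw [map_mul, sg_sg, mul_comm])

lemma pi0_sg_ne_zero {g : P p} (hg : pi0 p g ≠ 0) : pi0 p (sg p g) ≠ 0 := by
  rw [pi0_sg]
  intro h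
  apply hg
  rw [← sg_sg p (pi0 p g), h, map_zero]

lemma ne_zero_of_pi0 {g : P p} (hg : pi0 p g ≠ 0) : g ≠ 0 := by
  rintro rfl
  exact hg (map_zero _)

lemma ord_s : ord p (X .s) = 0 := by
  rw [ord, Phi_s]
  refine le_antisymm ?_ bot_le
  apply PowerSeries.order_le
  rw [PowerSeries.coeff_C, if_pos rfl]
  exact X_ne_zero _

lemma ord_q : ord p (X .q) = 0 := by
  rw [ord, Phi_q]
  refine le_antisymm ?_ bot_le
  apply PowerSeries.order_le
  rw [PowerSeries.coeff_C, if_pos rfl]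
  exact X_ne_zero _

variable (K : Type) [Field K] [Algebra (P p) K] [IsFractionRing (P p) K]

/-- `δ = q - σ(q)`. -/
def del : P p := X .q - sgq p

lemma del_cases : (p = 2 ∧ del p = -1) ∨ (p ≠ 2 ∧ del p = 2 * X .q) := by
  by_cases h : p = 2
  · left
    refine ⟨h, ?_⟩
    rw [del, sgq, if_pos h]
    ring
  · right
    refine ⟨h, ?_⟩
    rw [del, sgq, if_neg h]
    ring

lemma del_ne_zero : del p ≠ 0 := by
  rcases del_cases p with ⟨_, h⟩ | ⟨h0, h⟩
  · rw [h]; exact neg_ne_zero.mpr one_ne_zero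
  · rw [h]; exact mul_ne_zero (two_ne_zeroP p h0) (X_ne_zero _)

lemma sg_del : sg p (del p) = -del p := by
  rw [del, map_sub, sg_q, sg_sgq]
  ring

lemma pi0_del : pi0 p (del p) = del p := by
  rw [del, map_sub, pi0_sgq, pi0_X p _ (by simp)]

lemma ord_del : ord p (del p) = 0 := by
  rcases del_cases p with ⟨_, h⟩ | ⟨h0, h⟩
  · rw [h, ord_neg, ord_one]
  · rw [h, ord_mul, ord_q, add_zero, ord, map_ofNat]
    refine le_antisymm ?_ bot_le
    apply PowerSeries.order_le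
    rw [show (OfNat.ofNat 2 : PowerSeries (P p)) = PowerSeries.C (2 : P p) from
      (map_ofNat PowerSeries.C 2).symm, PowerSeries.coeff_C, if_pos rfl]
    exact two_ne_zeroP p h0

/-- `x = f / g` with `s ∤ g` and `ord g ≤ ord f`. -/
def Rep (x : K) (f g : P p) : Prop :=
  pi0 p g ≠ 0 ∧ ord p g ≤ ord p f ∧ x * em p K g = em p K f

variable {p K}

lemma Rep.add {x y : K} {f g f' g' : P p} (h : Rep p K x f g) (h' : Rep p K y f' g') :
    Rep p K (x + y) (f * g' + f' * g) (g * g') := by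
  refine ⟨?_, ?_, ?_⟩
  · rw [map_mul]; exact mul_ne_zero h.1 h'.1
  · refine le_trans ?_ (ord_add p _ _)
    rw [ord_mul, ord_mul, ord_mul]
    apply le_min
    · exact add_le_add h.2.1 le_rfl
    · rw [add_comm]; exact add_le_add h'.2.1 le_rfl
  · rw [map_mul, map_add, map_mul, map_mul, ← h.2.2, ← h'.2.2]
    ring

lemma Rep.mul {x y : K} {f g f' g' : P p} (h : Rep p K x f g) (h' : Rep p K y f' g') :
    Rep p K (x * y) (f * f') (g * g') := by
  refine ⟨?_, ?_, ?_⟩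
  · rw [map_mul]; exact mul_ne_zero h.1 h'.1
  · rw [ord_mul, ord_mul]
    exact add_le_add h.2.1 h'.2.1
  · rw [map_mul, map_mul, ← h.2.2, ← h'.2.2]
    ring

lemma Rep.neg {x : K} {f g : P p} (h : Rep p K x f g) : Rep p K (-x) (-f) g := by
  refine ⟨h.1, ?_, ?_⟩
  · rw [ord_neg]; exact h.2.1
  · rw [map_neg, ← h.2.2]; ring

lemma Rep_em (f : P p) : Rep p K (em p K f) f 1 := by
  refine ⟨?_, ?_, ?_⟩
  · rw [map_one]; exact one_ne_zero
  · rw [ord_one]; exact bot_le
  · rw [map_one, mul_one]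

lemma Rep.unique {x : K} {f g f' g' : P p} (h : Rep p K x f g) (h' : Rep p K x f' g') :
    f * g' = f' * g := by
  apply em_injective p K
  rw [map_mul, map_mul, ← h.2.2, ← h'.2.2]
  ring

lemma Rep.pi0_eq_zero {x : K} {f g f' g' : P p} (h : Rep p K x f g) (h' : Rep p K x f' g')
    (hf : pi0 p f = 0) : pi0 p f' = 0 := by
  have h1 := congrArg (pi0 p) (h.unique h')
  rw [map_mul, map_mul, hf, zero_mul] at h1
  exact (mul_eq_zero.mp h1.symm).resolve_right h.1

variable (p K)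

/-- The counterexample ring `R`. -/
def RR : Subring (K) where
  carrier := {x | ∃ f ∈ Dsub p, ∃ g ∈ Dsub p, Rep p K x f g}
  one_mem' := ⟨1, (Dsub p).one_mem, 1, (Dsub p).one_mem, by
    have := Rep_em (K := K) (1 : P p)
    rwa [map_one] at this⟩
  zero_mem' := ⟨0, (Dsub p).zero_mem, 1, (Dsub p).one_mem, by
    have := Rep_em (K := K) (0 : P p)
    rwa [map_zero] at this⟩
  add_mem' := by
    rintro x y ⟨f, hf, g, hg, h⟩ ⟨f', hf', g', hg', h'⟩
    exact ⟨_, (Dsub p).add_mem ((Dsub p).mul_mem hf hg') ((Dsub p).mul_mem hf' hg), _,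
      (Dsub p).mul_mem hg hg', h.add h'⟩
  mul_mem' := by
    rintro x y ⟨f, hf, g, hg, h⟩ ⟨f', hf', g', hg', h'⟩
    exact ⟨_, (Dsub p).mul_mem hf hf', _, (Dsub p).mul_mem hg hg', h.mul h'⟩
  neg_mem' := by
    rintro x ⟨f, hf, g, hg, h⟩
    exact ⟨_, (Dsub p).neg_mem hf, g, hg, h.neg⟩

lemma mem_RR {x : K} : x ∈ RR p K ↔ ∃ f ∈ Dsub p, ∃ g ∈ Dsub p, Rep p K x f g := Iff.rfl

lemma em_mem_RR {f : P p} (hf : f ∈ Dsub p) : em p K f ∈ RR p K :=
  ⟨f, hf, 1, (Dsub p).one_mem, Rep_em f⟩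

/-- The element of `R` given by `f ∈ D`. -/
def emR (f : P p) (hf : f ∈ Dsub p) : RR p K := ⟨em p K f, em_mem_RR p K hf⟩

/-- If `x = f / g` with `s ∤ g` and `ord g ≤ ord f` then `s x ∈ R`. -/
lemma s_mul_mem {x : K} {f g : P p} (h : Rep p K x f g) : em p K (X .s) * x ∈ RR p K := by
  refine ⟨X .s * (f * sg p g), D_of_pi0 p (by rw [map_mul, pi0_s, zero_mul]), g * sg p g,
    norm_mem_D p g, ?_, ?_, ?_⟩
  · rw [map_mul]; exact mul_ne_zero h.1 (pi0_sg_ne_zero p h.1)
  · rw [ord_mul, ord_mul, ord_mul, ord_s, zero_add]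
    exact add_le_add h.2.1 le_rfl
  · rw [map_mul, map_mul, map_mul, ← h.2.2]
    ring

/-- The prime ideal `𝔭 = {x ∈ R | x vanishes at s = 0}`. -/
def pp : Ideal (RR p K) where
  carrier := {x | ∃ f ∈ Dsub p, ∃ g ∈ Dsub p, Rep p K (x : K) f g ∧ pi0 p f = 0}
  zero_mem' := ⟨0, (Dsub p).zero_mem, 1, (Dsub p).one_mem, by
    have := Rep_em (K := K) (0 : P p)
    rwa [map_zero] at this, map_zero _⟩
  add_mem' := by
    rintro x y ⟨f, hf, g, hg, h, h0⟩ ⟨f', hf', g', hg', h', h0'⟩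
    exact ⟨_, (Dsub p).add_mem ((Dsub p).mul_mem hf hg') ((Dsub p).mul_mem hf' hg), _,
      (Dsub p).mul_mem hg hg', h.add h', by
        rw [map_add, map_mul, map_mul, h0, h0', zero_mul, zero_mul, add_zero]⟩
  smul_mem' := by
    rintro ⟨x, f, hf, g, hg, h⟩ y ⟨f', hf', g', hg', h', h0'⟩
    exact ⟨_, (Dsub p).mul_mem hf hf', _, (Dsub p).mul_mem hg hg', h.mul h', by
        rw [map_mul, h0', mul_zero]⟩

lemma mem_pp {x : RR p K} : x ∈ pp p K ↔
    ∃ f ∈ Dsub p, ∃ g ∈ Dsub p, Rep p K (x : K) f g ∧ pi0 p f = 0 := Iff.rfl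

lemma mem_pp_iff {x : RR p K} {f g : P p} (hf : f ∈ Dsub p) (hg : g ∈ Dsub p)
    (h : Rep p K (x : K) f g) : x ∈ pp p K ↔ pi0 p f = 0 := by
  constructor
  · rintro ⟨f', hf', g', hg', h', h0'⟩
    exact h'.pi0_eq_zero h h0'
  · intro h0
    exact ⟨f, hf, g, hg, h, h0⟩

instance pp_prime : (pp p K).IsPrime := by
  constructor
  · rw [Ideal.ne_top_iff_one]
    intro h
    have h1 := (mem_pp_iff p K (x := 1) (f := 1) (g := 1) (Dsub p).one_mem (Dsub p).one_mem (by
      have := Rep_em (K := K) (1 : P p)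
      rwa [map_one] at this)).mp h
    rw [map_one] at h1
    exact one_ne_zero h1
  · rintro x y hxy
    obtain ⟨f, hf, g, hg, h⟩ := x.2
    obtain ⟨f', hf', g', hg', h'⟩ := y.2
    have h1 := (mem_pp_iff p K ((Dsub p).mul_mem hf hf') ((Dsub p).mul_mem hg hg')
      (x := x * y) (h.mul h')).mp hxy
    rw [map_mul] at h1
    rcases mul_eq_zero.mp h1 with h2 | h2
    · exact Or.inl ((mem_pp_iff p K hf hg h).mpr h2)
    · exact Or.inr ((mem_pp_iff p K hf' hg' h').mpr h2)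

/-! ### `R` is Noetherian -/

/-- `s` as an element of `R`. -/
def sR : RR p K := emR p K (X .s) (X_mem_D p (by simp))
/-- `t` as an element of `R`. -/
def tR : RR p K := emR p K (X .t) (X_mem_D p (by simp))
/-- `s q` as an element of `R`. -/
def sqR : RR p K := emR p K (X .s * X .q) (D_of_pi0 p (by rw [map_mul, pi0_s, zero_mul]))

lemma coe_sR : (sR p K : K) = em p K (X .s) := rfl
lemma coe_tR : (tR p K : K) = em p K (X .t) := rfl
lemma coe_sqR : (sqR p K : K) = em p K (X .s * X .q) := rfl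

/-- `t^n` -/
def tp (n : ℕ) : P p := X .t ^ n

/-- `t^n + s` -/
def Tn (n : ℕ) : P p := tp p n + X .s

omit hp in
lemma tp_one : tp p 1 = X .t := pow_one _

lemma tp_mem_D (n : ℕ) : tp p n ∈ Dsub p := (Dsub p).pow_mem (X_mem_D p (by simp)) n

lemma Tn_mem_D (n : ℕ) : Tn p n ∈ Dsub p :=
  (Dsub p).add_mem (tp_mem_D p n) (X_mem_D p (by simp))

lemma pi0_Tn (n : ℕ) : pi0 p (Tn p n) ≠ 0 := by
  rw [Tn, tp, map_add, map_pow, pi0_s, pi0_X p _ (by simp), add_zero]
  exact pow_ne_zero _ (X_ne_zero _)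

lemma ord_tp (n : ℕ) : ord p (tp p n) = n := ord_t_pow p n

lemma ord_Tn {n : ℕ} (hn : 0 < n) : ord p (Tn p n) = 0 := ord_t_pow_add_s p hn

lemma em_tp (n : ℕ) : em p K (tp p n) = em p K (X .t) ^ n := by rw [tp, map_pow]

lemma exists_inv : ∃ z : RR p K, (z : K) * em p K (Tn p 1) = 1 := by
  have h1 : em p K (Tn p 1) ≠ 0 := em_ne_zero p K (ne_zero_of_pi0 p (pi0_Tn p 1))
  refine ⟨⟨(em p K (Tn p 1))⁻¹, 1, (Dsub p).one_mem, _, Tn_mem_D p 1, pi0_Tn p 1, ?_, ?_⟩, ?_⟩
  · rw [ord_Tn p one_pos]; exact bot_le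
  · rw [inv_mul_cancel₀ h1, map_one]
  · exact inv_mul_cancel₀ h1

/-- No prime contains both `s` and `t`. -/
lemma not_both (I : Ideal (RR p K)) (hI : I.IsPrime) (hs : sR p K ∈ I) (ht : tR p K ∈ I) :
    False := by
  apply hI.ne_top
  obtain ⟨z, hz⟩ := exists_inv p K
  have h : z * (tR p K + sR p K) = 1 := by
    apply Subtype.ext
    rw [Subring.coe_mul, Subring.coe_add, coe_tR, coe_sR, ← map_add, Subring.coe_one, ← hz, Tn,
      tp_one]
  rw [Ideal.eq_top_iff_one, ← h]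
  exact I.mul_mem_left _ (I.add_mem ht hs)

lemma pow_mem_RR_eq (i j : ℕ) : em p K (X .s ^ i * X .t ^ j) = ((sR p K ^ i * tR p K ^ j : RR p K) : K) := by
  rw [map_mul, map_pow, map_pow]; rfl

/-- A nonzero ideal contains a product `s^(i+1) t^j`. -/
lemma exists_pow_mem (I : Ideal (RR p K)) (hI : I ≠ ⊥) :
    ∃ i j, sR p K ^ (i+1) * tR p K ^ j ∈ I := by
  obtain ⟨x, hx, hx0⟩ := Submodule.exists_mem_ne_zero_of_ne_bot hI
  obtain ⟨f, hf, g, hg, h⟩ := x.2
  have hf0 : f ≠ 0 := by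
    rintro rfl
    apply hx0
    apply Subtype.ext
    have := h.2.2
    rw [map_zero] at this
    exact (mul_eq_zero.mp this).resolve_right (em_ne_zero p K (ne_zero_of_pi0 p h.1))
  obtain ⟨i, f', hff', hdvd⟩ := exists_pow_mul p .s hf0
  have hf' : pi0 p f' ≠ 0 := fun h0 => hdvd (X_dvd_of_kill_eq_zero p h0)
  have hf'0 := ne_zero_of_pi0 p hf'
  set j := (ord p f').toNat with hj
  have hj' : ((j : ℕ) : ℕ∞) = ord p f' := ENat.natCast_toNat (ord_ne_top p hf'0)
  have hrep : Rep p K (em p K (X .t ^ j) / em p K f') (X .t ^ j) f' := by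
    refine ⟨hf', ?_, ?_⟩
    · rw [ord_t_pow, hj']
    · rw [div_mul_cancel₀ _ (em_ne_zero p K hf'0)]
  have hz := s_mul_mem p K hrep
  refine ⟨i, j, ?_⟩
  obtain ⟨z, hzc⟩ : ∃ z : RR p K, (z : K) = em p K (X .s) * (em p K (X .t ^ j) / em p K f') :=
    ⟨⟨_, hz⟩, rfl⟩
  have h1 : emR p K g hg * x * z = sR p K ^ (i+1) * tR p K ^ j := by
    apply Subtype.ext
    rw [← pow_mem_RR_eq, Subring.coe_mul, Subring.coe_mul, hzc,
      show (emR p K g hg : K) = em p K g from rfl]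
    rw [mul_comm (em p K g), h.2.2, hff', map_mul, map_mul, map_pow, map_pow, map_pow]
    have := em_ne_zero p K hf'0
    field_simp
    ring
  rw [← h1]
  exact I.mul_mem_right _ (I.mul_mem_left _ hx)

lemma pp_le_of_s_mem (I : Ideal (RR p K)) (hI : I.IsPrime) (hs : sR p K ∈ I) : pp p K ≤ I := by
  rintro x ⟨f, hf, g, hg, h, h0⟩
  obtain ⟨f', rfl⟩ := X_dvd_of_kill_eq_zero p (v := .s) h0
  have hg0 := em_ne_zero p K (ne_zero_of_pi0 p h.1)
  have hrep : Rep p K (em p K f' / em p K g) f' g := by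
    refine ⟨h.1, ?_, ?_⟩
    · have := h.2.1
      rwa [ord_mul, ord_s, zero_add] at this
    · rw [div_mul_cancel₀ _ hg0]
  have hz := s_mul_mem p K (hrep.mul hrep)
  have h1 : x * x = sR p K * ⟨_, hz⟩ := by
    apply Subtype.ext
    show (x : K) * x = em p K (X .s) * (em p K (X .s) * (em p K f' / em p K g * (em p K f' / em p K g)))
    have hx : (x : K) = em p K (X .s) * em p K f' / em p K g := by
      rw [eq_div_iff hg0, h.2.2, map_mul]
    rw [hx]
    ring
  have h2 : x * x ∈ I := by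
    rw [h1]; exact I.mul_mem_right _ hs
  exact (hI.mem_or_mem h2).elim id id

lemma exists_mul_eq_t_pow {x : RR p K} (hxp : x ∉ pp p K) :
    ∃ (z : RR p K) (m : ℕ), x * z = tR p K ^ m := by
  obtain ⟨f, hf, g, hg, h⟩ := x.2
  have hf' : pi0 p f ≠ 0 := fun h0 => hxp ((mem_pp_iff p K hf hg h).mpr h0)
  have hf0 := ne_zero_of_pi0 p hf'
  obtain ⟨m, hm'⟩ : ∃ m : ℕ, (m : ℕ∞) = ord p f :=
    ⟨_, ENat.natCast_toNat (ord_ne_top p hf0)⟩
  refine ⟨⟨em p K (g * tp p m) / em p K f, g * tp p m, (Dsub p).mul_mem hg (tp_mem_D p m), f, hf,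
      hf', ?_, ?_⟩, m, ?_⟩
  · rw [ord_mul, ord_tp, hm']; exact le_add_self
  · rw [div_mul_cancel₀ _ (em_ne_zero p K hf0)]
  · apply Subtype.ext
    rw [Subring.coe_mul, Subring.coe_pow, coe_tR]
    show (x : K) * (em p K (g * tp p m) / em p K f) = _
    rw [map_mul, em_tp, mul_div_assoc', ← mul_assoc, h.2.2, mul_comm (em p K f),
      mul_div_cancel_right₀ _ (em_ne_zero p K hf0)]

lemma eq_pp_of_s_mem (I : Ideal (RR p K)) (hI : I.IsPrime) (hs : sR p K ∈ I) : I = pp p K := by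
  refine le_antisymm ?_ (pp_le_of_s_mem p K I hI hs)
  intro x hx
  by_contra hxp
  obtain ⟨z, m, h1⟩ := exists_mul_eq_t_pow p K hxp
  have h2 : tR p K ^ m ∈ I := by
    rw [← h1]; exact I.mul_mem_right _ hx
  exact not_both p K I hI hs (hI.mem_of_pow_mem m h2)

lemma eq_span_t (I : Ideal (RR p K)) (hI : I.IsPrime) (hs : sR p K ∉ I) (ht : tR p K ∈ I) :
    I = Ideal.span {tR p K} := by
  apply le_antisymm _ (by rw [Ideal.span_le]; simpa using ht)
  intro x hx
  rw [Ideal.mem_span_singleton']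
  obtain ⟨f, hf, g, hg, h⟩ := x.2
  have hg0 := ne_zero_of_pi0 p h.1
  have ht0 : em p K (X .t) ≠ 0 := em_ne_zero p K (X_ne_zero _)
  by_cases hord : ord p g + 1 ≤ ord p f
  · have hz : (x : K) / em p K (X .t) ∈ RR p K := by
      refine ⟨f, hf, g * X .t, (Dsub p).mul_mem hg (X_mem_D p (by simp)), ?_, ?_, ?_⟩
      · rw [map_mul, pi0_X p _ (by simp)]
        exact mul_ne_zero h.1 (X_ne_zero _)
      · rw [ord_mul]
        have := ord_t_pow p 1
        rw [pow_one] at this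
        rw [this]
        exact_mod_cast hord
      · rw [map_mul, ← h.2.2]
        field_simp
    refine ⟨⟨_, hz⟩, ?_⟩
    apply Subtype.ext
    show (x : K) / em p K (X .t) * em p K (X .t) = x
    rw [div_mul_cancel₀ _ ht0]
  · exfalso
    apply hs
    have hle : ord p f ≤ ord p g := by
      rw [not_le] at hord
      exact Order.le_of_lt_add_one hord
    have hf0 : f ≠ 0 := by
      rintro rfl
      rw [ord_zero] at hle
      exact ord_ne_top p hg0 (top_le_iff.mp hle)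
    obtain ⟨i, f', hff', hdvd⟩ := exists_pow_mul p .s hf0
    have hf' : pi0 p f' ≠ 0 := fun h0 => hdvd (X_dvd_of_kill_eq_zero p h0)
    have hf'0 := em_ne_zero p K (ne_zero_of_pi0 p hf')
    have hrep : Rep p K (em p K g / em p K f') g f' := by
      refine ⟨hf', ?_, ?_⟩
      · refine le_trans ?_ hle
        rw [hff', ord_mul]
        exact le_add_self
      · rw [div_mul_cancel₀ _ hf'0]
    have hz := s_mul_mem p K hrep
    have h1 : x * ⟨_, hz⟩ = sR p K ^ (i + 1) := by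
      apply Subtype.ext
      show (x : K) * (em p K (X .s) * (em p K g / em p K f')) = (em p K (X .s)) ^ (i+1)
      have h2 : (x : K) * em p K g = em p K (X .s) ^ i * em p K f' := by
        rw [h.2.2, hff', map_mul, map_pow]
      field_simp
      rw [mul_comm (x : K), mul_assoc, h2]
      ring
    have h2 : sR p K ^ (i + 1) ∈ I := by
      rw [← h1]; exact I.mul_mem_right _ hx
    exact hI.mem_of_pow_mem _ h2

end

end Pool.Agent.H87.PC
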