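import Pool.Agent.H87.PC.Cart

/-!
# The polynomial ring `P`, and its embedding in a power series ring
-/

namespace Pool.Agent.H87.PC

open MvPolynomial

noncomputable section

/-- The variables. -/
inductive Var : Type
  | s | t | q
  | r (ν : List ℕ)
  | u (ν : List ℕ)
  | w (a : ℕ → ℕ)

/-- The polynomial ring over `ZMod p` in the variables `Var`. -/
abbrev P (p : ℕ) := MvPolynomial Var (ZMod p)

/-- The initial segment of length `j` of the sequence `a`. -/
def node (a : ℕ → ℕ) (j : ℕ) : List ℕ := (List.range j).map a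

/-- The exponents: `E a j = ∑_{i<j} (a_i + 1)`. -/
def E (a : ℕ → ℕ) (j : ℕ) : ℕ := ∑ i ∈ Finset.range j, (a i + 1)

lemma E_zero (a : ℕ → ℕ) : E a 0 = 0 := by simp [E]

lemma E_succ (a : ℕ → ℕ) (j : ℕ) : E a (j+1) = E a j + (a j + 1) := by
  simp [E, Finset.sum_range_succ]

lemma node_length (a : ℕ → ℕ) (j : ℕ) : (node a j).length = j := by simp [node]

lemma node_eq_iff (a b : ℕ → ℕ) (j : ℕ) : node a j = node b j ↔ ∀ i < j, a i = b i := by
  simp [node]

lemma node_succ (a : ℕ → ℕ) (j : ℕ) : node a (j+1) = node a j ++ [a j] := by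
  simp [node, List.range_succ]

lemma node_zero (a : ℕ → ℕ) : node a 0 = [] := by simp [node]

lemma node_inj_of_le {a b : ℕ → ℕ} {i j : ℕ} (h : node a i = node b i) (hj : j ≤ i) :
    node a j = node b j := by
  rw [node_eq_iff] at *
  intro k hk
  exact h k (by omega)

variable (p : ℕ) [hp : Fact p.Prime]

/-- The coefficients of the power series `W a J = ∑_{j ≥ J} X^(p (E a j - E a J)) u_{a|j}`. -/
def wcoef (a : ℕ → ℕ) (J n : ℕ) : P p :=
  if hn : n = 0 then X (Var.u (node a J)) else
    if h : 0 < p * (a J + 1) ∧ p * (a J + 1) ≤ n then wcoef a (J+1) (n - p * (a J + 1)) else 0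
termination_by n
decreasing_by
  omega

/-- The power series `W a J = ∑_{j ≥ J} X^(p (E a j - E a J)) u_{a|j}`. -/
def W (a : ℕ → ℕ) (J : ℕ) : PowerSeries (P p) := PowerSeries.mk (wcoef p a J)

lemma W_eq (a : ℕ → ℕ) (J : ℕ) :
    W p a J = PowerSeries.C (X (Var.u (node a J))) +
      PowerSeries.X ^ (p * (a J + 1)) * W p a (J+1) := by
  ext1 n
  have hd : 0 < p * (a J + 1) := Nat.mul_pos hp.out.pos (Nat.succ_pos _)
  rw [W, PowerSeries.coeff_mk, wcoef, map_add, PowerSeries.coeff_C, PowerSeries.coeff_X_pow_mul']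
  by_cases hn : n = 0
  · subst hn
    rw [dif_pos rfl, if_pos rfl, if_neg (by omega), add_zero]
  · rw [dif_neg hn, if_neg hn, zero_add]
    by_cases h : p * (a J + 1) ≤ n
    · rw [dif_pos ⟨hd, h⟩, if_pos h, W, PowerSeries.coeff_mk]
    · rw [dif_neg (fun h' => h h'.2), if_neg h]

lemma wcoef_cases (a : ℕ → ℕ) (n : ℕ) : ∀ J, wcoef p a J n = 0 ∨
    ∃ j, J ≤ j ∧ wcoef p a J n = X (Var.u (node a j)) := by
  induction n using Nat.strong_induction_on with
  | _ n ih =>
    intro J
    have hd : 0 < p * (a J + 1) := Nat.mul_pos hp.out.pos (Nat.succ_pos _)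
    rw [wcoef]
    by_cases hn : n = 0
    · rw [dif_pos hn]
      exact Or.inr ⟨J, le_rfl, rfl⟩
    · rw [dif_neg hn]
      by_cases h : p * (a J + 1) ≤ n
      · rw [dif_pos ⟨hd, h⟩]
        rcases ih (n - p * (a J + 1)) (by omega) (J+1) with h1 | ⟨j, hj, h1⟩
        · exact Or.inl h1
        · exact Or.inr ⟨j, by omega, h1⟩
      · rw [dif_neg (fun h' => h h'.2)]
        exact Or.inl rfl

lemma W_expand (a : ℕ → ℕ) (J : ℕ) :
    W p a 0 = ∑ j ∈ Finset.range J, PowerSeries.X ^ (p * E a j) *
        PowerSeries.C (X (Var.u (node a j))) + PowerSeries.X ^ (p * E a J) * W p a J := by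
  induction J with
  | zero => simp [E_zero]
  | succ J ih =>
    rw [Finset.sum_range_succ, ih, W_eq p a J, E_succ, mul_add p, pow_add]
    ring

/-- The map `P → P⟦X⟧` of level `J`: `t ↦ X`, `w_a ↦ W a J`, constant on the other variables. -/
def Ps (J : ℕ) : P p →ₐ[ZMod p] PowerSeries (P p) :=
  aeval (fun v => match v with
    | .t => PowerSeries.X
    | .w a => W p a J
    | .s => PowerSeries.C (X .s)
    | .q => PowerSeries.C (X .q)
    | .r ν => PowerSeries.C (X (.r ν))
    | .u ν => PowerSeries.C (X (.u ν)))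

/-- Substitution `w_a ↦ ∑_{j<J} t^(p E_j) u_{a|j} + t^(p E_J) w_a`. -/
def Th (J : ℕ) : P p →ₐ[ZMod p] P p :=
  bind₁ (fun v => match v with
    | .w a => ∑ j ∈ Finset.range J, X .t ^ (p * E a j) * X (.u (node a j)) +
        X .t ^ (p * E a J) * X (.w a)
    | .t => X .t
    | .s => X .s
    | .q => X .q
    | .r ν => X (.r ν)
    | .u ν => X (.u ν))

lemma Ps_t (J : ℕ) : Ps p J (X .t) = PowerSeries.X := by simp [Ps]
lemma Ps_w (J : ℕ) (a : ℕ → ℕ) : Ps p J (X (.w a)) = W p a J := by simp [Ps]
lemma Ps_s (J : ℕ) : Ps p J (X .s) = PowerSeries.C (X .s) := by simp [Ps]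
lemma Ps_q (J : ℕ) : Ps p J (X .q) = PowerSeries.C (X .q) := by simp [Ps]
lemma Ps_r (J : ℕ) (ν : List ℕ) : Ps p J (X (.r ν)) = PowerSeries.C (X (.r ν)) := by simp [Ps]
lemma Ps_u (J : ℕ) (ν : List ℕ) : Ps p J (X (.u ν)) = PowerSeries.C (X (.u ν)) := by simp [Ps]

lemma Ps_zero_eq (J : ℕ) (f : P p) : Ps p 0 f = Ps p J (Th p J f) := by
  have : Ps p 0 = (Ps p J).comp (Th p J) := by
    apply MvPolynomial.algHom_ext
    intro v
    rw [AlgHom.comp_apply]
    cases v with
    | w a =>
      rw [Ps_w, W_expand p a J, Th, bind₁_X_right]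
      simp only [map_add, map_sum, map_mul, map_pow, Ps_t, Ps_u, Ps_w]
    | t => rw [Th, bind₁_X_right, Ps_t, Ps_t]
    | s => rw [Th, bind₁_X_right, Ps_s, Ps_s]
    | q => rw [Th, bind₁_X_right, Ps_q, Ps_q]
    | r ν => rw [Th, bind₁_X_right, Ps_r, Ps_r]
    | u ν => rw [Th, bind₁_X_right, Ps_u, Ps_u]
  rw [this]
  rfl

lemma Th_injective (J : ℕ) : Function.Injective (Th p J) := by
  let K := FractionRing (P p)
  let ev : P p →ₐ[ZMod p] K :=
    aeval (fun v => match v with
      | .w a => (algebraMap (P p) K (X (.w a)) - ∑ j ∈ Finset.range J,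
          algebraMap (P p) K (X .t) ^ (p * E a j) * algebraMap (P p) K (X (.u (node a j)))) /
          algebraMap (P p) K (X .t) ^ (p * E a J)
      | .t => algebraMap (P p) K (X .t)
      | .s => algebraMap (P p) K (X .s)
      | .q => algebraMap (P p) K (X .q)
      | .r ν => algebraMap (P p) K (X (.r ν))
      | .u ν => algebraMap (P p) K (X (.u ν)))
  have ht : algebraMap (P p) K (X .t) ≠ 0 := by
    intro h
    exact X_ne_zero (R := ZMod p) Var.t
      ((FaithfulSMul.algebraMap_injective (P p) K) (by rw [h, map_zero]))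
  have h : ev.comp (Th p J) = (IsScalarTower.toAlgHom (ZMod p) (P p) K) := by
    apply MvPolynomial.algHom_ext
    intro v
    rw [AlgHom.comp_apply, IsScalarTower.coe_toAlgHom']
    cases v with
    | w a =>
      rw [Th, bind₁_X_right]
      simp only [map_add, map_sum, map_mul, map_pow, ev, aeval_X]
      rw [mul_div_cancel₀ _ (pow_ne_zero _ ht)]
      ring
    | t => rw [Th, bind₁_X_right]; simp only [ev, aeval_X]
    | s => rw [Th, bind₁_X_right]; simp only [ev, aeval_X]
    | q => rw [Th, bind₁_X_right]; simp only [ev, aeval_X]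
    | r ν => rw [Th, bind₁_X_right]; simp only [ev, aeval_X]
    | u ν => rw [Th, bind₁_X_right]; simp only [ev, aeval_X]
  intro f g hfg
  apply FaithfulSMul.algebraMap_injective (P p) K
  have h1 : ev (Th p J f) = ev (Th p J g) := by rw [hfg]
  have h2 := DFunLike.congr_fun h f
  have h3 := DFunLike.congr_fun h g
  rw [AlgHom.comp_apply, IsScalarTower.coe_toAlgHom'] at h2 h3
  rw [← h2, ← h3, h1]

/-! ### Setting a variable to zero -/

/-- The substitution `v ↦ 0`. -/
def kill (v : Var) : P p →ₐ[ZMod p] P p :=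
  open Classical in aeval (fun i => if i = v then 0 else X i)

lemma X_dvd_sub_kill (v : Var) (f : P p) : X v ∣ f - kill p v f := by
  classical
  induction f using MvPolynomial.induction_on with
  | C a =>
    rw [kill, aeval_C]
    rw [show (algebraMap (ZMod p) (MvPolynomial Var (ZMod p))) a = C a from rfl, sub_self]
    exact dvd_zero _
  | add f g hf hg =>
    rw [map_add, add_sub_add_comm]
    exact dvd_add hf hg
  | mul_X f i hf =>
    rw [map_mul]
    by_cases h : i = v
    · have : kill p v (X i) = 0 := by simp [kill, h]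
      rw [this, mul_zero, sub_zero, h]
      exact dvd_mul_left _ _
    · have : kill p v (X i) = X i := by simp [kill, h]
      rw [this, ← sub_mul]
      exact dvd_mul_of_dvd_left hf _

lemma X_dvd_of_kill_eq_zero {v : Var} {f : P p} (h : kill p v f = 0) : X v ∣ f := by
  have := X_dvd_sub_kill p v f
  rwa [h, sub_zero] at this

lemma kill_eq_zero_of_dvd {v : Var} {f : P p} (h : X v ∣ f) : kill p v f = 0 := by
  obtain ⟨g, rfl⟩ := h
  rw [map_mul]
  have : kill p v (X v) = 0 := by simp [kill]
  rw [this, zero_mul]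

/-! ### Injectivity -/

/-- The variables of `g` are separated at level `J`. -/
def Good (J : ℕ) (g : P p) : Prop :=
  (∀ ν, Var.u ν ∈ g.vars → ν.length < J) ∧
  (∀ a b, Var.w a ∈ g.vars → Var.w b ∈ g.vars → node a J = node b J → a = b)

lemma exists_pow_mul (v : Var) {g : P p} (hg : g ≠ 0) :
    ∃ (n : ℕ) (g' : P p), g = X v ^ n * g' ∧ ¬ X v ∣ g' := by
  have h1 : Prime (X v : P p) := X_prime
  have h2 : FiniteMultiplicity (X v : P p) g := FiniteMultiplicity.of_prime_left h1 hg
  obtain ⟨c, hc⟩ := h2.exists_eq_pow_mul_and_not_dvd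
  exact ⟨_, c, hc⟩

omit hp in
lemma mem_vars_iff_degreeOf (v : Var) (f : P p) : v ∈ f.vars ↔ degreeOf v f ≠ 0 := by
  classical
  rw [vars_def, degreeOf_def, Multiset.mem_toFinset, ← Multiset.count_pos]
  omega

lemma good_of_mul {J n : ℕ} {g : P p} (h : Good p J (X .t ^ n * g)) :
    Good p J g := by
  classical
  have hsub : ∀ v, v ≠ .t → v ∈ g.vars → v ∈ (X .t ^ n * g : P p).vars := by
    intro v hv hg
    rw [mem_vars_iff_degreeOf] at *
    rwa [mul_comm, degreeOf_mul_X_pow_of_ne _ hv]
  exact ⟨fun ν hν => h.1 ν (hsub _ (by simp) hν), fun a b ha hb =>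
    h.2 a b (hsub _ (by simp) ha) (hsub _ (by simp) hb)⟩

/-- The substitution `t ↦ 0`, `w_a ↦ u_{a|J}`. -/
def sub0 (J : ℕ) : P p →ₐ[ZMod p] P p :=
  bind₁ (fun v => match v with
      | .t => (0 : P p)
      | .w a => X (.u (node a J))
      | .s => X .s
      | .q => X .q
      | .r ν => X (.r ν)
      | .u ν => X (.u ν))

/-- The constant coefficient of `Ps J`. -/
lemma constantCoeff_Ps (J : ℕ) (f : P p) : PowerSeries.constantCoeff (Ps p J f) = sub0 p J f := by
  have hW : ∀ a, PowerSeries.constantCoeff (W p a J) = X (.u (node a J)) := by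
    intro a
    rw [← PowerSeries.coeff_zero_eq_constantCoeff_apply, W, PowerSeries.coeff_mk, wcoef,
      dif_pos rfl]
  induction f using MvPolynomial.induction_on with
  | C a =>
    rw [sub0, bind₁_C_right, show (C a : P p) = algebraMap (ZMod p) (P p) a from rfl,
      AlgHom.commutes]
    rfl
  | add f g hf hg => rw [map_add, map_add, map_add, hf, hg]
  | mul_X f v hf =>
    rw [map_mul, map_mul, map_mul, hf]
    congr 1
    rw [sub0, bind₁_X_right]
    cases v with
    | t => rw [Ps_t]; simp
    | w a => rw [Ps_w]; exact hW a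
    | s => rw [Ps_s]; simp
    | q => rw [Ps_q]; simp
    | r ν => rw [Ps_r]; simp
    | u ν => rw [Ps_u]; simp

lemma algHom_congr {f₁ f₂ : P p →ₐ[ZMod p] P p} {g : P p}
    (h : ∀ v ∈ g.vars, f₁ (X v) = f₂ (X v)) : f₁ g = f₂ g := by
  refine MvPolynomial.hom_congr_vars (f₁ := f₁.toRingHom) (f₂ := f₂.toRingHom) (p₁ := g)
    (p₂ := g) ?_ (fun i hi _ => h i hi) rfl
  refine RingHom.ext fun a => ?_
  show f₁ (C a) = f₂ (C a)
  rw [show (C a : P p) = algebraMap (ZMod p) (P p) a from rfl, AlgHom.commutes, AlgHom.commutes]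

open Classical in
/-- The substitution `u_{a|J} ↦ w_a` for the `w_a` occurring in `g`. -/
def chi (J : ℕ) (g : P p) : P p →ₐ[ZMod p] P p := bind₁ (fun v => match v with
      | .u ν => if hν : ∃ a, Var.w a ∈ g.vars ∧ node a J = ν then X (.w hν.choose) else X (.u ν)
      | .w a => X (.w a)
      | .t => X .t
      | .s => X .s
      | .q => X .q
      | .r ν => X (.r ν))

lemma chi_sub0 {J : ℕ} {g : P p} (hg : Good p J g) :
    chi p J g (sub0 p J g) = kill p .t g := by
  classical
  show ((chi p J g).comp (sub0 p J)) g = kill p .t g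
  apply algHom_congr
  intro v hv
  rw [AlgHom.comp_apply, sub0, bind₁_X_right]
  cases v with
  | t => simp [kill]
  | s => simp [kill, chi]
  | q => simp [kill, chi]
  | r ν => simp [kill, chi]
  | u ν =>
    have hlen := hg.1 ν hv
    have hno : ¬ ∃ a, Var.w a ∈ g.vars ∧ node a J = ν := by
      rintro ⟨a, _, ha⟩
      rw [← ha, node_length] at hlen
      omega
    simp only [chi, bind₁_X_right]
    rw [dif_neg hno]
    simp [kill]
  | w a =>
    have hyes : ∃ b, Var.w b ∈ g.vars ∧ node b J = node a J := ⟨a, hv, rfl⟩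
    simp only [chi, bind₁_X_right]
    rw [dif_pos hyes]
    have := hg.2 _ a hyes.choose_spec.1 hv hyes.choose_spec.2
    rw [this]
    simp [kill]

lemma eq_zero_of_Ps {J : ℕ} {g : P p} (hg : Good p J g) (h : Ps p J g = 0) : g = 0 := by
  by_contra hne
  obtain ⟨n, g', hgg', hdvd⟩ := exists_pow_mul p .t hne
  have hg' : Good p J g' := by
    rw [hgg'] at hg
    exact good_of_mul p hg
  have h' : Ps p J g' = 0 := by
    rw [hgg', map_mul, map_pow, Ps_t] at h
    rcases mul_eq_zero.mp h with h1 | h1
    · exact absurd h1 (pow_ne_zero _ PowerSeries.X_ne_zero)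
    · exact h1
  apply hdvd
  apply X_dvd_of_kill_eq_zero
  rw [← chi_sub0 p hg', ← constantCoeff_Ps, h', map_zero, map_zero]

/-! ### Good levels exist -/

/-- A level `J` separating the finite set of variables `S`. -/
lemma exists_level (S : Finset Var) : ∃ J : ℕ, (∀ ν, Var.u ν ∈ S → ν.length < J) ∧
    (∀ a b, Var.w a ∈ S → Var.w b ∈ S → node a J = node b J → a = b) := by
  classical
  induction S using Finset.induction_on with
  | empty => exact ⟨0, by simp, by simp⟩
  | insert v S hv ih =>
    obtain ⟨J, h1, h2⟩ := ih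
    cases v with
    | w a =>
      have h3 : ∃ J', J ≤ J' ∧ ∀ b, Var.w b ∈ S → node a J' = node b J' → a = b := by
        clear h1 h2 hv
        induction S using Finset.induction_on with
        | empty => exact ⟨J, le_rfl, by simp⟩
        | insert v S hv ih =>
          obtain ⟨J', hJ, h⟩ := ih
          cases v with
          | w b =>
            by_cases hab : a = b
            · refine ⟨J', hJ, ?_⟩
              intro c hc hc2
              rcases Finset.mem_insert.mp hc with h4 | h4
              · rw [hab]; exact (Var.w.inj h4).symm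
              · exact h c h4 hc2
            · obtain ⟨i, hi⟩ := Function.ne_iff.mp hab
              refine ⟨max J' (i+1), le_trans hJ (le_max_left _ _), ?_⟩
              intro c hc hc2
              rcases Finset.mem_insert.mp hc with h4 | h4
              · exfalso
                rw [Var.w.inj h4, node_eq_iff] at hc2
                exact hi (hc2 i (lt_of_lt_of_le (Nat.lt_succ_self i) (le_max_right _ _)))
              · exact h c h4 (node_inj_of_le hc2 (le_max_left _ _))
          | s => exact ⟨J', hJ, fun b hb => h b (by simpa using hb)⟩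
          | t => exact ⟨J', hJ, fun b hb => h b (by simpa using hb)⟩
          | q => exact ⟨J', hJ, fun b hb => h b (by simpa using hb)⟩
          | r ν => exact ⟨J', hJ, fun b hb => h b (by simpa using hb)⟩
          | u ν => exact ⟨J', hJ, fun b hb => h b (by simpa using hb)⟩
      obtain ⟨J', hJ, h3⟩ := h3
      refine ⟨J', ?_, ?_⟩
      · intro ν hν
        have : Var.u ν ∈ S := by simpa using hν
        exact lt_of_lt_of_le (h1 ν this) hJ
      · intro b c hb hc hbc
        rcases Finset.mem_insert.mp hb with hb' | hb'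
        · rcases Finset.mem_insert.mp hc with hc' | hc'
          · rw [Var.w.inj hb', Var.w.inj hc']
          · rw [Var.w.inj hb'] at hbc ⊢
            exact h3 c hc' hbc
        · rcases Finset.mem_insert.mp hc with hc' | hc'
          · rw [Var.w.inj hc'] at hbc ⊢
            exact (h3 b hb' hbc.symm).symm
          · exact h2 b c hb' hc' (node_inj_of_le hbc hJ)
    | u ν =>
      refine ⟨max J (ν.length + 1), ?_, ?_⟩
      · intro μ hμ
        rcases Finset.mem_insert.mp hμ with h4 | h4
        · rw [Var.u.inj h4]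
          exact lt_of_lt_of_le (Nat.lt_succ_self _) (le_max_right _ _)
        · exact lt_of_lt_of_le (h1 μ h4) (le_max_left _ _)
      · intro b c hb hc hbc
        exact h2 b c (by simpa using hb) (by simpa using hc) (node_inj_of_le hbc (le_max_left _ _))
    | s => exact ⟨J, fun ν hν => h1 ν (by simpa using hν), fun b c hb hc =>
        h2 b c (by simpa using hb) (by simpa using hc)⟩
    | t => exact ⟨J, fun ν hν => h1 ν (by simpa using hν), fun b c hb hc =>
        h2 b c (by simpa using hb) (by simpa using hc)⟩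
    | q => exact ⟨J, fun ν hν => h1 ν (by simpa using hν), fun b c hb hc =>
        h2 b c (by simpa using hb) (by simpa using hc)⟩
    | r ν => exact ⟨J, fun ν hν => h1 ν (by simpa using hν), fun b c hb hc =>
        h2 b c (by simpa using hb) (by simpa using hc)⟩

/-- The variables of `Th J f`. -/
lemma mem_vars_Th {J : ℕ} {f : P p} {v : Var} (hv : v ∈ (Th p J f).vars) :
    (∀ ν, v = .u ν → (Var.u ν ∈ f.vars ∨ ν.length < J)) ∧
    (∀ a, v = .w a → Var.w a ∈ f.vars) := by
  classical
  rw [Th] at hv
  have h1 := mem_vars_bind₁ _ _ hv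
  obtain ⟨v', hv', hvv'⟩ := h1
  cases v' with
  | w a =>
    have h2 := vars_add_subset _ _ hvv'
    rcases Finset.mem_union.mp h2 with h3 | h3
    · have h4 := vars_sum_subset _ _ h3
      rw [Finset.mem_biUnion] at h4
      obtain ⟨j, hj, h5⟩ := h4
      have h6 := vars_mul _ _ h5
      rcases Finset.mem_union.mp h6 with h7 | h7
      · have h8 := vars_pow _ _ h7
        rw [vars_X, Finset.mem_singleton] at h8
        subst h8
        exact ⟨by simp, by simp⟩
      · rw [vars_X, Finset.mem_singleton] at h7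
        subst h7
        refine ⟨?_, by simp⟩
        intro ν hν
        rw [← Var.u.inj hν, node_length]
        exact Or.inr (Finset.mem_range.mp hj)
    · have h6 := vars_mul _ _ h3
      rcases Finset.mem_union.mp h6 with h7 | h7
      · have h8 := vars_pow _ _ h7
        rw [vars_X, Finset.mem_singleton] at h8
        subst h8
        exact ⟨by simp, by simp⟩
      · rw [vars_X, Finset.mem_singleton] at h7
        subst h7
        refine ⟨by simp, ?_⟩
        intro b hb
        rwa [← Var.w.inj hb]
  | t => rw [vars_X, Finset.mem_singleton] at hvv'; subst hvv'; exact ⟨by simp, by simp⟩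
  | s => rw [vars_X, Finset.mem_singleton] at hvv'; subst hvv'; exact ⟨by simp, by simp⟩
  | q => rw [vars_X, Finset.mem_singleton] at hvv'; subst hvv'; exact ⟨by simp, by simp⟩
  | r ν => rw [vars_X, Finset.mem_singleton] at hvv'; subst hvv'; exact ⟨by simp, by simp⟩
  | u ν =>
    rw [vars_X, Finset.mem_singleton] at hvv'
    subst hvv'
    refine ⟨?_, by simp⟩
    intro μ hμ
    rw [← Var.u.inj hμ]
    exact Or.inl hv'

lemma good_Th {J : ℕ} {f : P p} (h : Good p J f) : Good p J (Th p J f) := by
  refine ⟨?_, ?_⟩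
  · intro ν hν
    rcases (mem_vars_Th p hν).1 ν rfl with h1 | h1
    · exact h.1 ν h1
    · exact h1
  · intro a b ha hb
    exact h.2 a b ((mem_vars_Th p ha).2 a rfl) ((mem_vars_Th p hb).2 b rfl)

omit hp in
lemma exists_good (f : P p) : ∃ J, Good p J f := exists_level f.vars

lemma Ps_zero_injective : Function.Injective (Ps p 0) := by
  rw [injective_iff_map_eq_zero]
  intro f hf
  obtain ⟨J, hJ⟩ := exists_good p f
  rw [Ps_zero_eq p J] at hf
  have := eq_zero_of_Ps p (good_Th p hJ) hf
  exact Th_injective p J (by rw [this, map_zero])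

end

end Pool.Agent.H87.PC
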