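import Pool.Agent.H87.PC.Split

/-!
# The perfect closure of `R` is a solid `R`-algebra
-/

namespace Pool.Agent.H87.PC

open MvPolynomial

noncomputable section

variable (p : ℕ) [hp : Fact p.Prime]
variable (K : Type) [Field K] [Algebra (P p) K] [IsFractionRing (P p) K]

lemma exists_cy (f : P p) : ∃ h, Phi p h = Cart p (Phi p f) := by
  obtain ⟨h, hh⟩ := exists_Cart p (th p f)
  exact ⟨th' p h, by rw [Phi_apply, th_th', hh, Phi_apply]⟩

/-- The Cartier map of `P` induced from the power series ring. -/
def cy : P p →+ P p where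
  toFun f := (exists_cy p f).choose
  map_zero' := by
    apply Phi_injective p
    rw [(exists_cy p 0).choose_spec, map_zero, map_zero]
  map_add' f g := by
    apply Phi_injective p
    rw [(exists_cy p (f + g)).choose_spec, map_add, map_add, map_add, (exists_cy p f).choose_spec,
      (exists_cy p g).choose_spec]

lemma Phi_cy (f : P p) : Phi p (cy p f) = Cart p (Phi p f) := (exists_cy p f).choose_spec

lemma cy_hc : ∀ a x : P p, cy p (a ^ p * x) = a * cy p x := by
  intro a x
  apply Phi_injective p
  rw [Phi_cy, map_mul (Phi p) a, map_mul (Phi p) (a ^ p), map_pow, Cart_pow_mul, Phi_cy]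

lemma cy_one : cy p 1 = 1 := by
  apply Phi_injective p
  rw [Phi_cy, map_one]
  ext1 n
  rw [coeff_Cart, PowerSeries.coeff_one, PowerSeries.coeff_one]
  by_cases hn : n = 0
  · subst hn; rw [mul_zero, if_pos rfl, cart_one]
  · rw [if_neg hn, if_neg (Nat.mul_ne_zero hp.out.ne_zero hn), map_zero]

/-- The Cartier map of `K` preserving the `t`-adic valuation ring. -/
def CY : K →+ K := cHom p K (cy_hc p)

lemma CY_pow_mul (a x : K) : CY p K (a ^ p * x) = a * CY p K x := cExt_pow_mul p K (cy_hc p) a x

lemma CY_one : CY p K 1 = 1 := cExt_one p K (cy_hc p) (cy_one p)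

lemma CY_pow (a : K) : CY p K (a ^ p) = a := by
  have := CY_pow_mul p K a 1
  rwa [mul_one, CY_one, mul_one] at this

/-- The subset `B` of `K`. -/
def inB (x : K) : Prop := ∃ f g : P p, Rep p K x f g

lemma inB_CY {x : K} (hx : inB p K x) : inB p K (CY p K x) := by
  obtain ⟨f, g, h⟩ := hx
  have hg0 := ne_zero_of_pi0 p h.1
  refine ⟨_, g, h.1, ?_, cExt_eq p K (cy_hc p) hg0 h.2.2⟩
  obtain ⟨m, hm⟩ : ∃ m : ℕ, (m : ℕ∞) = ord p g := ⟨_, ENat.natCast_toNat (ord_ne_top p hg0)⟩
  rw [← hm, ord, Phi_cy]
  apply le_order_Cart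
  show _ ≤ ord p (f * g ^ (p - 1))
  rw [ord_mul, ord_pow, ← hm]
  calc ((p * m : ℕ) : ℕ∞) = m + (p - 1) • (m : ℕ∞) := by
        have h1 : p * m = m + (p - 1) * m := by
          conv_lhs => rw [← Nat.sub_add_cancel hp.out.one_le]
          ring
        rw [h1]
        push_cast
        rw [nsmul_eq_mul]
        rfl
    _ ≤ _ := by
      apply add_le_add _ le_rfl
      rw [hm]; exact h.2.1

lemma inB_iterate {x : K} (hx : inB p K x) (n : ℕ) : inB p K ((CY p K)^[n] x) := by
  induction n with
  | zero => exact hx
  | succ n ih =>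
    rw [Function.iterate_succ_apply']
    exact inB_CY p K ih

lemma inB_of_mem (x : RR p K) : inB p K (x : K) := by
  obtain ⟨f, hf, g, hg, h⟩ := x.2
  exact ⟨f, g, h⟩

/-- `x ↦ s · C^n(x)`. -/
def sC (n : ℕ) (x : RR p K) : RR p K :=
  ⟨em p K (X .s) * (CY p K)^[n] (x : K), by
    obtain ⟨f, g, h⟩ := inB_iterate p K (inB_of_mem p K x) n
    exact s_mul_mem p K h⟩

lemma coe_sC (n : ℕ) (x : RR p K) : (sC p K n x : K) = em p K (X .s) * (CY p K)^[n] (x : K) := rfl

lemma iter_pow (n : ℕ) (a x : K) : (CY p K)^[n] (a ^ p ^ n * x) = a * (CY p K)^[n] x := by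
  induction n generalizing x with
  | zero => simp
  | succ n ih =>
    rw [Function.iterate_succ_apply, Function.iterate_succ_apply, pow_succ, pow_mul, CY_pow_mul, ih]

lemma iter_pow' (m n : ℕ) (x : K) : (CY p K)^[m + n] (x ^ p ^ n) = (CY p K)^[m] x := by
  rw [Function.iterate_add_apply]
  congr 1
  induction n with
  | zero => simp
  | succ n ih => rw [Function.iterate_succ_apply, pow_succ, pow_mul, CY_pow, ih]

lemma iter_add (n : ℕ) (x y : K) : (CY p K)^[n] (x + y) = (CY p K)^[n] x + (CY p K)^[n] y := by
  induction n generalizing x y with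
  | zero => rfl
  | succ n ih => rw [Function.iterate_succ_apply, Function.iterate_succ_apply,
      Function.iterate_succ_apply, map_add, ih]

lemma charP_K : CharP K p := by
  have : CharP (P p) p := inferInstance
  exact charP_of_injective_algebraMap (IsFractionRing.injective (P p) K) p

instance charP_RR : CharP (RR p K) p where
  cast_eq_zero_iff n := by
    have := charP_K p K
    rw [← CharP.cast_eq_zero_iff K p n]
    constructor
    · intro h
      have := congrArg (fun z : RR p K => (z : K)) h
      simpa using this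
    · intro h
      apply Subtype.ext
      simpa using h

/-- The nonzero `R`-linear map `R_perf → R`. -/
def solidMap : PerfectClosure (RR p K) p →+ RR p K where
  toFun x := PerfectClosure.liftOn x (fun y => sC p K y.1 y.2) (by
    rintro _ _ ⟨n, x⟩
    apply Subtype.ext
    rw [coe_sC, coe_sC, frobenius_def, Subring.coe_pow, Function.iterate_succ_apply, CY_pow])
  map_zero' := by
    rw [PerfectClosure.zero_def, PerfectClosure.liftOn_mk]
    apply Subtype.ext
    rw [coe_sC]
    simp
  map_add' x y := by
    induction x using PerfectClosure.induction_on with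
    | h x =>
    induction y using PerfectClosure.induction_on with
    | h y =>
    rw [PerfectClosure.mk_add_mk, PerfectClosure.liftOn_mk, PerfectClosure.liftOn_mk,
      PerfectClosure.liftOn_mk]
    apply Subtype.ext
    rw [Subring.coe_add, coe_sC, coe_sC, coe_sC, Subring.coe_add, iterate_frobenius,
      iterate_frobenius, Subring.coe_pow, Subring.coe_pow, iter_add, iter_pow', add_comm x.1,
      iter_pow', mul_add]

lemma solidMap_mk (n : ℕ) (x : RR p K) :
    solidMap p K (PerfectClosure.mk (RR p K) p (n, x)) = sC p K n x := rfl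

lemma solidMap_linear (a : RR p K) (x : PerfectClosure (RR p K) p) :
    solidMap p K (PerfectClosure.of (RR p K) p a * x) = a * solidMap p K x := by
  induction x using PerfectClosure.induction_on with
  | h x =>
  obtain ⟨n, x⟩ := x
  rw [PerfectClosure.of_apply, PerfectClosure.mk_mul_mk]
  simp only [zero_add, Function.iterate_zero, id]
  rw [solidMap_mk, solidMap_mk]
  apply Subtype.ext
  rw [Subring.coe_mul, coe_sC, coe_sC, Subring.coe_mul, iterate_frobenius, Subring.coe_pow,
    iter_pow]
  ring

lemma solidMap_one : solidMap p K 1 = sR p K := by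
  rw [PerfectClosure.one_def, solidMap_mk]
  apply Subtype.ext
  rw [coe_sC, coe_sR]
  simp

lemma solidMap_ne_zero : solidMap p K ≠ 0 := by
  intro h
  have h1 := solidMap_one p K
  rw [h] at h1
  have h2 := congrArg (fun z : RR p K => (z : K)) h1
  simp only [AddMonoidHom.zero_apply, coe_sR] at h2
  exact em_ne_zero p K (X_ne_zero Var.s) h2.symm

end

end Pool.Agent.H87.PC
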