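import Pool.Agent.H87.PC.Noeth

/-!
# Cartier maps on `K`, the Frobenius splitting of `R_𝔭`, and solidity of `R_perf`
-/

namespace Pool.Agent.H87.PC

open MvPolynomial

noncomputable section

variable (p : ℕ) [hp : Fact p.Prime]
variable (K : Type) [Field K] [Algebra (P p) K] [IsFractionRing (P p) K]

/-- Extension of a `p⁻¹`-linear map of `P` to `K`. -/
def cExt (c : P p →+ P p) (x : K) : K :=
  em p K (c ((exists_rep p K x).choose * (exists_rep p K x).choose_spec.choose ^ (p - 1))) /
    em p K (exists_rep p K x).choose_spec.choose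

lemma pow_p {R : Type*} [CommMonoid R] (z : R) : z ^ p = z ^ (p-1) * z :=
  (pow_sub_one_mul hp.out.ne_zero z).symm

variable {c : P p →+ P p} (hc : ∀ a x, c (a ^ p * x) = a * c x)

include hc in
lemma cExt_eq {x : K} {f g : P p} (hg : g ≠ 0) (h : x * em p K g = em p K f) :
    cExt p K c x * em p K g = em p K (c (f * g ^ (p - 1))) := by
  obtain ⟨hg', h'⟩ := (exists_rep p K x).choose_spec.choose_spec
  rw [cExt]
  set f' := (exists_rep p K x).choose
  set g' := (exists_rep p K x).choose_spec.choose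
  have hg0 := em_ne_zero p K hg'
  have e : f * g' = f' * g := by
    apply em_injective p K
    rw [map_mul, map_mul, ← h, ← h']
    ring
  rw [div_mul_eq_mul_div, div_eq_iff hg0, ← map_mul, ← map_mul]
  congr 1
  have e2 : g * c (f' * g' ^ (p - 1)) = c (f' * g * g ^ (p-1) * g' ^ (p-1)) := by
    rw [← hc]
    congr 1
    rw [pow_p p g]
    ring
  have e3 : g' * c (f * g ^ (p - 1)) = c (f * g' * g ^ (p-1) * g' ^ (p-1)) := by
    rw [← hc]
    congr 1
    rw [pow_p p g']
    ring
  rw [mul_comm _ g, mul_comm _ g', e2, e3, e]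

include hc in
lemma cExt_add (x y : K) : cExt p K c (x + y) = cExt p K c x + cExt p K c y := by
  obtain ⟨f, g, hg, h⟩ := exists_rep p K x
  obtain ⟨f', g', hg', h'⟩ := exists_rep p K y
  have h1 : (f * g') = (f * g') := rfl
  have hx : x * em p K (g * g') = em p K (f * g') := by
    rw [map_mul, map_mul, ← h]; ring
  have hy : y * em p K (g * g') = em p K (f' * g) := by
    rw [map_mul, map_mul, ← h']; ring
  have hxy : (x + y) * em p K (g * g') = em p K (f * g' + f' * g) := by
    rw [add_mul, hx, hy, map_add]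
  have hgg := mul_ne_zero hg hg'
  have a1 := cExt_eq p K hc hgg hx
  have a2 := cExt_eq p K hc hgg hy
  have a3 := cExt_eq p K hc hgg hxy
  apply mul_right_cancel₀ (em_ne_zero p K hgg)
  rw [a3, add_mul _ _ (em p K (g * g')), a1, a2, ← map_add, ← map_add]
  congr 2
  ring

include hc in
lemma cExt_pow_mul (a x : K) : cExt p K c (a ^ p * x) = a * cExt p K c x := by
  obtain ⟨f, g, hg, h⟩ := exists_rep p K a
  obtain ⟨f', g', hg', h'⟩ := exists_rep p K x
  have hax : (a ^ p * x) * em p K (g ^ p * g') = em p K (f ^ p * f') := by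
    rw [map_mul, map_mul, map_pow, map_pow, ← h, ← h', mul_pow]; ring
  have hgg : g ^ p * g' ≠ 0 := mul_ne_zero (pow_ne_zero _ hg) hg'
  have a1 := cExt_eq p K hc hgg hax
  have a2 := cExt_eq p K hc hg' h'
  have e : f ^ p * f' * (g ^ p * g') ^ (p - 1) = (f * g ^ (p-1)) ^ p * (f' * g' ^ (p - 1)) := by
    rw [mul_pow (g ^ p), mul_pow f, ← pow_mul, ← pow_mul, mul_comm p (p-1)]
    ring
  rw [e, hc, map_mul (em p K) (f * g ^ (p - 1)), ← a2] at a1
  apply mul_right_cancel₀ (em_ne_zero p K hgg)
  rw [a1, map_mul, map_mul, map_pow, map_pow, pow_p p (em p K g), ← h]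
  ring

include hc in
lemma cExt_one (h1 : c 1 = 1) : cExt p K c 1 = 1 := by
  have := cExt_eq p K hc (x := 1) (f := 1) (g := 1) one_ne_zero (by rw [one_mul])
  rwa [one_pow, mul_one, h1, map_one, mul_one] at this

/-- The extension as an additive map. -/
def cHom : K →+ K where
  toFun := cExt p K c
  map_zero' := by
    have := cExt_add p K hc 0 0
    rw [add_zero] at this
    exact left_eq_add.mp this
  map_add' := cExt_add p K hc

/-! ### The Frobenius splitting of `R_𝔭` -/

lemma cart_comm {φ : P p →ₐ[ZMod p] P p} (cv : Var → ZMod p) (h : ∀ v, φ (X v) = C (cv v) * X v)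
    (f : P p) : cart p (φ f) = φ (cart p f) := by
  classical
  apply cart_comm_of_monomial
  intro m hm hm0
  have h1 : φ (monomial m 1) = (∏ v ∈ m.support, cv v ^ m v) • monomial m (1 : ZMod p) := by
    rw [monomial_eq, C_1, one_mul, Finsupp.prod, map_prod, smul_eq_C_mul, map_prod,
      ← Finset.prod_mul_distrib]
    apply Finset.prod_congr rfl
    intro v _
    rw [map_pow, h, mul_pow, map_pow]
  rw [h1, map_smul, cart_monomial_of_not, smul_zero]
  rintro ⟨m', rfl⟩
  apply hm0
  ext v
  have h2 := hm v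
  simp only [Finsupp.coe_smul, Pi.smul_apply, smul_eq_mul] at h2 ⊢
  rcases Nat.eq_zero_or_pos (m' v) with h3 | h3
  · rw [h3, mul_zero]; rfl
  · have : p * 1 ≤ p * m' v := Nat.mul_le_mul_left _ h3
    omega

/-- The element `α` with `α + σ(α) = 1`. -/
def alp : P p := if p = 2 then X .q else C (2⁻¹ : ZMod p)

lemma alp_add : alp p + sg p (alp p) = 1 := by
  by_cases h : p = 2
  · have h1 : alp p = X .q := if_pos h
    have h2 : sgq p = X .q + 1 := if_pos h
    rw [h1, sg_q, h2]
    linear_combination (X .q : P p) * two_eq_zero p h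
  · have h1 : alp p = C (2⁻¹ : ZMod p) := if_neg h
    rw [h1, sg, bind₁_C_right, ← C_add, ← two_mul, mul_inv_cancel₀ (two_ne_zero' p h), C_1]

lemma pi0_alp : pi0 p (alp p) = alp p := by
  by_cases h : p = 2
  · have h1 : alp p = X .q := if_pos h
    rw [h1, pi0_X p _ (by simp)]
  · have h1 : alp p = C (2⁻¹ : ZMod p) := if_neg h
    rw [h1, show (C (2⁻¹ : ZMod p) : P p) = algebraMap (ZMod p) (P p) (2⁻¹) from rfl,
      AlgHom.commutes]

/-- A `σ`-equivariant Cartier map of `P` splitting the Frobenius. -/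
def cu : P p →+ P p where
  toFun f := alp p * cart p f + sg p (alp p) * sg p (cart p (sg p f))
  map_zero' := by simp
  map_add' f g := by
    simp only [map_add]
    ring

lemma cu_apply (f : P p) : cu p f = alp p * cart p f + sg p (alp p) * sg p (cart p (sg p f)) := rfl

lemma cu_one : cu p 1 = 1 := by
  rw [cu_apply, map_one (sg p), cart_one, map_one (sg p), mul_one, mul_one, alp_add]

lemma cu_hc : ∀ a x : P p, cu p (a ^ p * x) = a * cu p x := by
  intro a x
  rw [cu_apply, cu_apply, map_mul (sg p), map_pow (sg p), cart_pow_mul, cart_pow_mul,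
    map_mul (sg p) (sg p a), sg_sg]
  ring

lemma cu_mem_D {f : P p} (hf : f ∈ Dsub p) : cu p f ∈ Dsub p := by
  classical
  have h2 : ∀ f : P p, cart p (pi0 p f) = pi0 p (cart p f) := by
    apply cart_comm p (fun v => if v = .s then 0 else 1)
    intro v
    by_cases hv : v = .s
    · subst hv; rw [if_pos rfl, pi0_s, C_0, zero_mul]
    · rw [if_neg hv, pi0_X p v hv, C_1, one_mul]
  have h1 : ∀ f : P p, cu p (pi0 p f) = pi0 p (cu p f) := by
    intro f
    rw [cu_apply, cu_apply, map_add, map_mul, map_mul, pi0_alp, pi0_sg, pi0_alp, pi0_sg, h2,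
      ← pi0_sg, h2]
  have h3 : ∀ f : P p, cu p (sg p f) = sg p (cu p f) := by
    intro f
    rw [cu_apply, cu_apply, map_add, map_mul, map_mul, sg_sg, sg_sg, sg_sg]
    ring
  rw [mem_D] at *
  rw [← h3, ← h1, ← h1, hf]

/-- The local ring `A = R_𝔭` as a subset of `K`. -/
def inA (x : K) : Prop := ∃ f ∈ Dsub p, ∃ g ∈ Dsub p, pi0 p g ≠ 0 ∧ x * em p K g = em p K f

lemma inA_cart {x : K} (hx : inA p K x) : inA p K (cHom p K (cu_hc p) x) := by
  obtain ⟨f, hf, g, hg, hg0, h⟩ := hx
  exact ⟨_, cu_mem_D p ((Dsub p).mul_mem hf ((Dsub p).pow_mem hg (p - 1))), g, hg, hg0,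
    cExt_eq p K (cu_hc p) (ne_zero_of_pi0 p hg0) h⟩

/-- `R_𝔭 → K`. -/
def iota : Localization.AtPrime (pp p K) →+* K :=
  IsLocalization.lift (M := (pp p K).primeCompl) (g := (RR p K).subtype) (by
    rintro ⟨y, hy⟩
    apply IsUnit.mk0
    intro h
    apply hy
    have : y = 0 := Subtype.ext h
    rw [this]
    exact (pp p K).zero_mem)

lemma iota_algebraMap (x : RR p K) : iota p K (algebraMap _ _ x) = (x : K) :=
  IsLocalization.lift_eq _ _

lemma iota_mk (x : RR p K) (y : (pp p K).primeCompl) :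
    iota p K (IsLocalization.mk' _ x y) * (y : RR p K) = (x : K) := by
  rw [← iota_algebraMap, ← iota_algebraMap, ← map_mul, IsLocalization.mk'_spec]

lemma iota_injective : Function.Injective (iota p K) := by
  rw [injective_iff_map_eq_zero]
  intro l hl
  obtain ⟨x, y, rfl⟩ := IsLocalization.exists_mk'_eq (pp p K).primeCompl l
  have h := iota_mk p K x y
  rw [hl, zero_mul] at h
  have hx : x = 0 := Subtype.ext h.symm
  rw [hx, IsLocalization.mk'_zero]

lemma inA_iota (l : Localization.AtPrime (pp p K)) : inA p K (iota p K l) := by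
  obtain ⟨x, y, rfl⟩ := IsLocalization.exists_mk'_eq (pp p K).primeCompl l
  have h := iota_mk p K x y
  obtain ⟨f, hf, g, hg, hr⟩ := x.2
  obtain ⟨f', hf', g', hg', hr'⟩ := (y : RR p K).2
  have h0 : pi0 p f' ≠ 0 := by
    intro h0
    exact y.2 ((mem_pp_iff p K hf' hg' hr').mpr h0)
  refine ⟨f * g', (Dsub p).mul_mem hf hg', f' * g, (Dsub p).mul_mem hf' hg, ?_, ?_⟩
  · rw [map_mul]; exact mul_ne_zero h0 hr.1
  · rw [map_mul, map_mul, ← hr.2.2, ← hr'.2.2, ← h]
    ring

lemma exists_iota {x : K} (hx : inA p K x) : ∃ l, iota p K l = x := by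
  obtain ⟨f, hf, g, hg, hg0, h⟩ := hx
  have hgp : emR p K g hg ∉ pp p K := by
    intro h1
    exact hg0 ((mem_pp_iff p K hg (Dsub p).one_mem (Rep_em g)).mp h1)
  refine ⟨IsLocalization.mk' _ (emR p K f hf) (⟨emR p K g hg, hgp⟩ : (pp p K).primeCompl), ?_⟩
  have h1 := iota_mk p K (emR p K f hf) (⟨emR p K g hg, hgp⟩ : (pp p K).primeCompl)
  apply mul_right_cancel₀ (em_ne_zero p K (ne_zero_of_pi0 p hg0))
  rw [h]
  exact h1

/-- The Frobenius splitting on `R_𝔭`. -/
lemma exists_split : ∃ κ : Localization.AtPrime (pp p K) →+ Localization.AtPrime (pp p K),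
    (∀ r x, κ (r ^ p * x) = r * κ x) ∧ ∀ a, κ (a ^ p) = a := by
  have h : ∀ l, ∃ l', iota p K l' = cHom p K (cu_hc p) (iota p K l) := fun l =>
    exists_iota p K (inA_cart p K (inA_iota p K l))
  choose κ hκ using h
  have hlin : ∀ a x : K, cHom p K (cu_hc p) (a ^ p * x) = a * cHom p K (cu_hc p) x :=
    cExt_pow_mul p K (cu_hc p)
  have hone : cHom p K (cu_hc p) 1 = 1 := cExt_one p K (cu_hc p) (cu_one p)
  let κ' : Localization.AtPrime (pp p K) →+ Localization.AtPrime (pp p K) :=
    { toFun := κ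
      map_zero' := by
        apply iota_injective p K
        rw [hκ, map_zero, map_zero]
      map_add' := fun x y => by
        apply iota_injective p K
        rw [hκ, map_add, map_add, map_add, hκ, hκ] }
  have hlin' : ∀ r x, κ' (r ^ p * x) = r * κ' x := by
    intro r x
    apply iota_injective p K
    show iota p K (κ (r ^ p * x)) = iota p K (r * κ x)
    rw [hκ, map_mul, map_pow, hlin, map_mul, hκ]
  refine ⟨κ', hlin', ?_⟩
  intro a
  have h1 : κ' 1 = 1 := by
    apply iota_injective p K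
    show iota p K (κ 1) = _
    rw [hκ, map_one, hone]
  have := hlin' a 1
  rwa [mul_one, h1, mul_one] at this

end

end Pool.Agent.H87.PC
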